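import Pool.Agent.U34.RPO.Defs

set_option autoImplicit false

/-! The codes of formulas: injectivity, computability. -/

namespace Pool.Agent.U34.RPO

section

variable {N : ℕ} {ar : Fin N → ℕ}

theorem flatten_inj : ∀ (n : ℕ) (x y : Fin n → Tm ar ℕ),
    (∀ i t' r r', (x i).code ++ r = Tm.code t' ++ r' → x i = t' ∧ r = r') →
    ∀ r r', (List.ofFn fun i => (x i).code).flatten ++ r =
      (List.ofFn fun i => (y i).code).flatten ++ r' → x = y ∧ r = r' := by
  intro n
  induction n with
  | zero =>
    intro x y _ r r' h
    refine ⟨funext fun i => i.elim0, by simpa using h⟩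
  | succ n ih =>
    intro x y hx r r' h
    rw [List.ofFn_succ, List.ofFn_succ, List.flatten_cons, List.flatten_cons, List.append_assoc,
      List.append_assoc] at h
    obtain ⟨h1, h2⟩ := hx 0 _ _ _ h
    obtain ⟨h3, h4⟩ := ih (fun i => x i.succ) (fun i => y i.succ)
      (fun i => hx i.succ) r r' h2
    refine ⟨funext fun i => ?_, h4⟩
    refine Fin.cases h1 (fun i => ?_) i
    exact congrFun h3 i

theorem Tm.code_append : ∀ (t t' : Tm ar ℕ) (r r' : List ℕ),
    t.code ++ r = t'.code ++ r' → t = t' ∧ r = r'
  | .var v, .var v', r, r', h => by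
    simp only [Tm.code, List.cons_append, List.nil_append, List.cons.injEq] at h
    exact ⟨by rw [show v = v' by omega], h.2⟩
  | .var v, .app s x, r, r', h => by
    simp only [Tm.code, List.cons_append, List.cons.injEq] at h
    omega
  | .app s x, .var v, r, r', h => by
    simp only [Tm.code, List.cons_append, List.cons.injEq] at h
    omega
  | .app s x, .app s' y, r, r', h => by
    simp only [Tm.code, List.cons_append, List.cons.injEq] at h
    have h1 : s = s' := Fin.ext (by omega)
    subst h1
    obtain ⟨h3, h4⟩ := flatten_inj _ x y (fun i t' r r' => Tm.code_append (x i) t' r r') r r' h.2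
    exact ⟨by rw [h3], h4⟩

theorem QF.code_append : ∀ (φ ψ : QF ar ℕ) (r r' : List ℕ),
    φ.code ++ r = ψ.code ++ r' → φ = ψ ∧ r = r' := by
  intro φ
  induction φ with
  | eq u v =>
    intro ψ r r' h
    cases ψ with
    | eq u' v' =>
      simp only [QF.code, List.cons_append, List.cons.injEq, List.append_assoc, true_and] at h
      obtain ⟨h1, h2⟩ := Tm.code_append _ _ _ _ h
      obtain ⟨h3, h4⟩ := Tm.code_append _ _ _ _ h2
      exact ⟨by rw [h1, h3], h4⟩
    | _ => simp [QF.code] at h
  | gt u v =>
    intro ψ r r' h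
    cases ψ with
    | gt u' v' =>
      simp only [QF.code, List.cons_append, List.cons.injEq, List.append_assoc, true_and] at h
      obtain ⟨h1, h2⟩ := Tm.code_append _ _ _ _ h
      obtain ⟨h3, h4⟩ := Tm.code_append _ _ _ _ h2
      exact ⟨by rw [h1, h3], h4⟩
    | _ => simp [QF.code] at h
  | not φ ih =>
    intro ψ r r' h
    cases ψ with
    | not ψ =>
      simp only [QF.code, List.cons_append, List.cons.injEq, true_and] at h
      obtain ⟨h1, h2⟩ := ih _ _ _ h
      exact ⟨by rw [h1], h2⟩
    | _ => simp [QF.code] at h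
  | and φ φ' ih ih' =>
    intro ψ r r' h
    cases ψ with
    | and u' v' =>
      simp only [QF.code, List.cons_append, List.cons.injEq, List.append_assoc, true_and] at h
      obtain ⟨h1, h2⟩ := ih _ _ _ h
      obtain ⟨h3, h4⟩ := ih' _ _ _ h2
      exact ⟨by rw [h1, h3], h4⟩
    | _ => simp [QF.code] at h
  | or φ φ' ih ih' =>
    intro ψ r r' h
    cases ψ with
    | or u' v' =>
      simp only [QF.code, List.cons_append, List.cons.injEq, List.append_assoc, true_and] at h
      obtain ⟨h1, h2⟩ := ih _ _ _ h
      obtain ⟨h3, h4⟩ := ih' _ _ _ h2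
      exact ⟨by rw [h1, h3], h4⟩
    | _ => simp [QF.code] at h

/-- a formula is determined by its code -/
theorem QF.code_injective : Function.Injective (QF.code : QF ar ℕ → List ℕ) := by
  intro φ ψ h
  exact (QF.code_append φ ψ [] [] (by simpa using h)).1

/-- iterated prefixing is computable -/
theorem iter_prim (p z : List ℕ) : Primrec fun n : ℕ => (p ++ ·)^[n] z :=
  Primrec.nat_iterate Primrec.id (Primrec.const z)
    (Primrec.list_append.comp (Primrec.const p) Primrec.snd)

end

end Pool.Agent.U34.RPO
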