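import Pool.Agent.U34.RPO.Gadget

set_option autoImplicit false

/-! The definitions of addition and multiplication hold for the canonical words. -/

namespace Pool.Agent.U34.RPO

section

variable {Λ : Type} {P : Λ → Λ → Prop} {a b : Λ}

theorem t_sub {u : List Bool} : ∀ {n : ℕ} {z : List Bool},
    (true :: u).Sublist (B n ++ true :: z) ↔ u.Sublist z := by
  intro n
  induction n with
  | zero => intro z; exact List.cons_sublist_cons
  | succ n ih =>
    intro z
    rw [B_succ, List.cons_append, tf]
    exact ih

theorem cIsA (H : Hyp P a b) {z : List Λ} {n : ℕ} (h : sk a b z = A n) : IsA P b z := by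
  intro h1
  have := (cst H z [false]).1 h1
  rw [h] at this
  have := this.count_le false
  rw [cb_A] at this
  simp at this

theorem cIsB (H : Hyp P a b) {z : List Λ} {n : ℕ} (h : sk a b z = B n) : IsB P a z := by
  intro h1
  have := (cst H z [true]).1 h1
  rw [h] at this
  have := this.count_le true
  rw [ca_B] at this
  simp at this

theorem cIsY (H : Hyp P a b) {z : List Λ} {n : ℕ} (h : sk a b z = B n ++ [true]) :
    IsY P a b z := by
  refine ⟨(cst H z [true]).2 ?_, fun h1 => ?_, fun h1 => ?_⟩
  · rw [h, t_sub]
  · have := (cst H z [true, true]).1 h1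
    rw [h, t_sub] at this
    simp at this
  · have := (cst H z [true, false]).1 h1
    rw [h, t_sub] at this
    simp at this

theorem cIsW0 (H : Hyp P a b) {z : List Λ} {n : ℕ} (h : sk a b z = B n ++ [true, true]) :
    IsW0 P a b z := by
  refine ⟨(cst H z [true, true]).2 ?_, fun h1 => ?_, fun h1 => ?_⟩
  · rw [h, t_sub]
  · have := (cst H z [true, true, true]).1 h1
    rw [h, t_sub] at this
    simp at this
  · have := (cst H z [true, false]).1 h1
    rw [h, t_sub] at this
    simp at this

theorem cIsR (H : Hyp P a b) {z : List Λ} {n : ℕ} (h : sk a b z = A n ++ [false]) :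
    IsR P a b z := by
  refine ⟨(cst H z [false]).2 ?_, fun h1 => ?_, fun h1 => ?_⟩
  · rw [h, f_sub]
  · have := (cst H z [false, true]).1 h1
    rw [h, f_sub] at this
    simp at this
  · have := (cst H z [false, false]).1 h1
    rw [h, f_sub] at this
    simp at this

theorem cIsL (H : Hyp P a b) {z : List Λ} {n : ℕ} (h : sk a b z = A n ++ [false, true]) :
    IsL P a b z := by
  refine ⟨(cst H z [false, true]).2 ?_, fun h1 => ?_, fun h1 => ?_⟩
  · rw [h, f_sub]
  · have := (cst H z [false, false]).1 h1
    rw [h, f_sub] at this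
    simp at this
  · have := (cst H z [false, true, true]).1 h1
    rw [h, f_sub] at this
    simp at this

theorem cIsX (H : Hyp P a b) {z : List Λ} {p q : ℕ}
    (h : sk a b z = A p ++ false :: (A q ++ [false])) : IsX P a b z := by
  refine ⟨(cst H z [false, false]).2 ?_, fun h1 => ?_, fun h1 => ?_⟩
  · rw [h, f_sub, f_sub]
  · have := (cst H z [false, false, true]).1 h1
    rw [h, f_sub, f_sub] at this
    simp at this
  · have := (cst H z [false, false, false]).1 h1
    rw [h, f_sub, f_sub] at this
    simp at this

theorem cIsP (H : Hyp P a b) {z : List Λ} {p q : ℕ}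
    (h : sk a b z = A p ++ (B (q + 1) ++ [true])) : IsP P a b z := by
  rw [B_succ, List.cons_append] at h
  refine ⟨(cst H z [false, true]).2 ?_, fun h1 => ?_, fun h1 => ?_⟩
  · rw [h, f_sub, t_sub]
  · have := (cst H z [false, true, false]).1 h1
    rw [h, f_sub, t_sub] at this
    simp at this
  · have := (cst H z [false, true, true]).1 h1
    rw [h, f_sub, t_sub] at this
    simp at this

theorem cIsQ (H : Hyp P a b) {z : List Λ} {n : ℕ} (h : sk a b z = B n ++ [true, false]) :
    IsQ P a b z := by
  refine ⟨(cst H z [true, false]).2 ?_, fun h1 => ?_, fun h1 => ?_⟩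
  · rw [h, t_sub]
  · have := (cst H z [true, true]).1 h1
    rw [h, t_sub] at this
    simp at this
  · have := (cst H z [true, false, false]).1 h1
    rw [h, t_sub] at this
    simp at this

theorem cIsS (H : Hyp P a b) {z : List Λ} {p q : ℕ}
    (h : sk a b z = B p ++ (A (q + 1) ++ [false, true])) : IsS P a b z := by
  rw [A_succ, List.cons_append] at h
  refine ⟨(cst H z [true, false, true]).2 ?_, fun h1 => ?_, fun h1 => ?_⟩
  · rw [h, t_sub, f_sub]
  · have := (cst H z [true, false, false]).1 h1
    rw [h, t_sub, f_sub] at this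
    simp at this
  · have := (cst H z [true, false, true, true]).1 h1
    rw [h, t_sub, f_sub] at this
    simp at this

theorem nn (H : Hyp P a b) (x t : List Bool) :
    WGe P (nf a b x) (nf a b t) ↔ t.Sublist x := by
  rw [wge_nf H, sk_nf H.ne]

theorem cLnk (H : Hyp P a b) (k : ℕ) :
    Lnk P a b (nf a b (A k ++ [false])) (nf a b (A k)) := by
  refine ⟨cIsR H (sk_nf H.ne _), (nn H _ _).2 (List.sublist_append_left _ _), fun h => ?_⟩
  have := (nn H _ (A (k + 1))).1 h
  rw [A_sub, cntT] at this
  simp at this

theorem cAdd (H : Hyp P a b) (i j : ℕ) :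
    Add P a b (nf a b (A i)) (nf a b (A j)) (nf a b (A (i + j))) := by
  refine ⟨cIsA H (sk_nf H.ne _), cIsA H (sk_nf H.ne _), cIsA H (sk_nf H.ne _),
    nf a b (A i ++ false :: (A (j + 1) ++ [false])), nf a b (A i ++ [false]),
    nf a b (A i ++ [false, true]), cIsX H (sk_nf H.ne _), cIsR H (sk_nf H.ne _),
    cIsL H (sk_nf H.ne _), (nn H _ (false :: A (j + 1))).2 ?_, fun h => ?_,
    (nn H _ (A (i + j + 1))).2 ?_, fun h => ?_, (cLnk H i).2.1, (cLnk H i).2.2,
    (nn H _ _).2 ?_, fun h => ?_, (nn H _ _).2 ?_, fun h => ?_⟩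
  · rw [f_sub]; exact List.sublist_append_left _ _
  · have := (nn H _ (false :: A (j + 2))).1 h
    rw [f_sub, A_sub, cntT] at this
    simp at this
  · rw [A_sub, cntT, cntT]
    simp
  · have := (nn H _ (A (i + j + 2))).1 h
    rw [A_sub, cntT, cntT] at this
    simp at this
    omega
  · exact (List.Sublist.refl _).append (by simp)
  · have := (nn H _ (A (i + 1) ++ [false])).1 h
    have h2 : (A (i + 1) ++ [false]).Sublist ((A i ++ [false]) ++ [true]) := by simpa using this
    rw [snoc_ne (by decide), snoc_same, A_sub, ca_A] at h2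
    omega
  · exact (List.Sublist.refl _).append (((List.nil_sublist _).cons_cons true).cons_cons false)
  · have := (nn H _ (A (i + 1) ++ false :: A 1)).1 h
    have := ab_le le_rfl this
    omega

theorem cGen (H : Hyp P a b) {c : Bool} (hc : Third a b c) {u : List Bool} {m k : ℕ}
    (hm : u.count false = m) (hk : u.count true = k) :
    Gen P a b c (nf a b (u ++ [false, true])) (nf a b (B m)) (nf a b (A k ++ [false])) := by
  have no1 : ¬ (B (m + 1) ++ [true]).Sublist u := by
    intro h
    have := h.count_le false
    rw [List.count_append, cb_B] at this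
    simp at this
    omega
  have no2 : ∀ s, ¬ ((B (m + 1) ++ [true]) ++ [s]).Sublist (u ++ [false, true]) := by
    intro s h
    have e : u ++ [false, true] = (u ++ [false]) ++ [true] := by simp
    rw [e] at h
    cases s
    · rw [snoc_ne (by decide), snoc_same] at h
      exact no1 h
    · rw [snoc_same, snoc_ne (by decide)] at h
      exact no1 h
  have hw : ∃ w, IsW P a b c w ∧ WGe P w (b :: nf a b (B m)) ∧
      ¬ WGe P w (b :: b :: nf a b (B m)) ∧ ¬ WGe P (nf a b (u ++ [false, true])) w := by
    cases c
    · refine ⟨nf a b (B (m + 1) ++ [true, true]), cIsW0 H (sk_nf H.ne _),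
        (nn H _ (B (m + 1))).2 (List.sublist_append_left _ _), fun h => ?_, fun h => ?_⟩
      · have := (nn H _ (B (m + 2))).1 h
        have := Btt.1 this
        omega
      · apply no2 true
        simpa using (nn H _ _).1 h
    · obtain ⟨h, ha, hb⟩ := hc
      have hs : sk a b (nf a b (B (m + 1) ++ [true]) ++ [h]) = B (m + 1) ++ [true] := by
        rw [sk_append, sk_nf H.ne, sk_cons_ne ha hb, sk_nil, List.append_nil]
      refine ⟨nf a b (B (m + 1) ++ [true]) ++ [h], cIsY H hs,
        (wge_nf H _ (B (m + 1))).2 ?_, fun h1 => ?_, fun h1 => ?_⟩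
      · rw [hs]; exact List.sublist_append_left _ _
      · have := (wge_nf H _ (B (m + 2))).1 h1
        rw [hs] at this
        have := Bt.1 this
        omega
      · obtain ⟨s, hs⟩ := wgt_noise H ha hb _ _ h1
        exact no2 s hs
  obtain ⟨w, w1, w2, w3, w4⟩ := hw
  refine ⟨nf a b (B (m + 1) ++ [true]), w, cIsY H (sk_nf H.ne _),
    (nn H _ (B (m + 1))).2 (List.sublist_append_left _ _), fun h => ?_, w1, w2, w3,
    (nn H _ _).2 ?_, w4, fun h => ?_, (nn H _ _).2 ?_, fun h => ?_⟩
  · have := (nn H _ (B (m + 2))).1 h
    have := Bt.1 this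
    omega
  · rw [B_succ']
    have h1 : (B m).Sublist u := B_sub.2 hm.ge
    simpa using h1.append (List.Sublist.refl [false, true])
  · have := (nn H _ (B (m + 2))).1 h
    rw [B_sub, List.count_append] at this
    simp at this
    omega
  · have h1 : (A k).Sublist u := A_sub.2 hk.ge
    exact h1.append (by simp)
  · have := (nn H _ (A (k + 1) ++ [false])).1 h
    have e : u ++ [false, true] = (u ++ [false]) ++ [true] := by simp
    rw [e, snoc_ne (by decide), snoc_same, A_sub] at this
    omega

/-- `(a^n b)^m` -/
def U (n : ℕ) : ℕ → List Bool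
  | 0 => []
  | m + 1 => A n ++ false :: U n m

theorem cbU (n m : ℕ) : (U n m).count false = m := by
  induction m with
  | zero => rfl
  | succ m ih => rw [U, cntF, ih]

theorem caU (n m : ℕ) : (U n m).count true = n * m := by
  induction m with
  | zero => rfl
  | succ m ih => rw [U, cntT, ih]; ring

theorem U_succ' (n m : ℕ) : U n (m + 1) = U n m ++ (A n ++ [false]) := by
  induction m with
  | zero => rfl
  | succ m ih =>
    change A n ++ false :: U n (m + 1) = (A n ++ false :: U n m) ++ (A n ++ [false])
    rw [ih]
    simp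

theorem U_no (n m : ℕ) : ¬ (B m ++ [true]).Sublist (U n m) := by
  induction m with
  | zero => intro h; simp [U] at h
  | succ m ih => rw [U, B_succ, List.cons_append, f_sub]; exact ih

theorem cCore (H : Hyp P a b) {c : Bool} (hc : Third a b c) (n m : ℕ) :
    Core P a b c (nf a b (A (n + 1))) (nf a b (B m)) (nf a b (A ((n + 1) * m))) := by
  have hu := caU (n + 1) m
  have hu' := cbU (n + 1) m
  refine ⟨cIsA H (sk_nf H.ne _), cIsB H (sk_nf H.ne _), cIsA H (sk_nf H.ne _),
    nf a b (A ((n + 1) * m + (n + 1))), nf a b (A (n + 1) ++ [false]),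
    nf a b (A ((n + 1) * m) ++ [false]), nf a b (A ((n + 1) * m + (n + 1)) ++ [false]),
    nf a b (U (n + 1) m ++ [false, true]), nf a b ((U (n + 1) m ++ A (n + 1)) ++ [false, true]),
    nf a b (U (n + 1) (m + 1) ++ [false, true]),
    nf a b (A (n + 1) ++ (B (m + 1 + 1) ++ [true])), nf a b (B m ++ [true]),
    nf a b (B m ++ [true, false]), nf a b (B m ++ (A (n + 1) ++ [false, true])),
    nf a b (A ((n + 1) * m + (n + 1)) ++ (B (1 + 1) ++ [true])), cAdd H _ _, cLnk H _, cLnk H _,
    cLnk H _, cGen H hc hu' hu, cGen H hc ?_ ?_, cGen H hc (m := m + 1) (cbU _ _) ?_,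
    (nn H _ (false :: (U (n + 1) m ++ [false, true]))).2 ?_, cIsP H (sk_nf H.ne _),
    (nn H _ _).2 ?_, (nn H _ (B (m + 2))).2 ?_, (nn H _ _).2 ?_, cIsY H (sk_nf H.ne _),
    (nn H _ _).2 (List.sublist_append_left _ _), fun h => ?_, cIsQ H (sk_nf H.ne _),
    (nn H _ _).2 ?_, fun h => ?_, fun h => ?_, cIsS H (sk_nf H.ne _),
    (nn H _ _).2 ?_, (nn H _ _).2 ?_, (nn H _ _).2 ?_, (nn H _ _).2 ?_, (nn H _ _).2 ?_,
    cIsP H (sk_nf H.ne _), (nn H _ _).2 ?_, (nn H _ [false, false, true]).2 ?_, (nn H _ _).2 ?_⟩
  · rw [List.count_append, hu', cb_A]; rfl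
  · rw [List.count_append, hu, ca_A]
  · rw [caU]; ring
  · rw [U, ← List.cons_append]
    exact (List.sublist_append_right _ _).append (List.Sublist.refl _)
  · rw [B_succ, List.cons_append]
    exact (List.Sublist.refl _).append (by simp)
  · rw [B_sub, List.count_append, cb_A, List.count_append, cb_B]; simp
  · have h1 : (B m).Sublist (U (n + 1) m) := B_sub.2 hu'.ge
    have h2 : B (m + 1 + 1) ++ [true] = false :: (B m ++ [false, true]) := by
      rw [B_succ, B_succ']; simp
    rw [U, h2]
    have := (List.Sublist.refl (A (n + 1))).append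
      ((h1.append (List.Sublist.refl [false, true])).cons_cons false)
    simpa using this
  · have := (nn H _ (B (m + 1))).1 h
    have := Bt.1 this
    omega
  · exact (List.Sublist.refl _).append (by simp)
  · have := (nn H _ (B (m + 1) ++ [true])).1 h
    have e : B m ++ [true, false] = (B m ++ [true]) ++ [false] := by simp
    rw [e, snoc_ne (by decide), snoc_same, B_sub, cb_B] at this
    omega
  · have := (nn H _ _).1 h
    have e1 : B m ++ [true, false] = (B m ++ [true]) ++ [false] := by simp
    have e2 : U (n + 1) m ++ [false, true] = (U (n + 1) m ++ [false]) ++ [true] := by simp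
    rw [e1, e2, snoc_ne (by decide), snoc_same] at this
    exact U_no _ _ this
  · rw [A_succ, List.cons_append]
    refine (List.Sublist.refl _).append (List.Sublist.cons_cons true ?_)
    exact (show [false].Sublist [false, true] by simp).trans (List.sublist_append_right _ _)
  · have h1 : (A (n + 1) ++ [false]).Sublist (A (n + 1) ++ [false, true]) :=
      (List.Sublist.refl _).append (by simp)
    exact h1.trans (List.sublist_append_right _ _)
  · have h1 : (B m).Sublist (U (n + 1) m) := B_sub.2 hu'.ge
    rw [← List.append_assoc]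
    exact (h1.append (List.Sublist.refl _)).append (List.Sublist.refl _)
  · exact (List.sublist_append_left _ _).append (List.Sublist.refl _)
  · rw [U_succ', ← List.append_assoc]
    exact (List.sublist_append_left _ _).append (List.Sublist.refl _)
  · rw [B_succ, List.cons_append]
    exact (List.Sublist.refl _).append (by simp)
  · exact List.sublist_append_right _ _
  · rw [U_succ', ← List.append_assoc]
    have h1 : (A ((n + 1) * m + (n + 1))).Sublist (U (n + 1) m ++ A (n + 1)) := by
      rw [A_sub, List.count_append, hu, ca_A]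
    have := (h1.append (List.Sublist.refl [false])).append (List.Sublist.refl [false, true])
    simpa [B_succ] using this

theorem cMul (H : Hyp P a b) {c : Bool} (hc : Third a b c) (i j : ℕ) :
    Mul P a b c (nf a b (A i)) (nf a b (A j)) (nf a b (A (i * j))) := by
  refine ⟨cIsA H (sk_nf H.ne _), nf a b (B j), nf a b (A ((i + 1) * j)), ?_, ?_, ?_⟩
  · have := cCore H hc 0 j
    rw [Nat.zero_add, Nat.one_mul] at this
    exact this
  · exact cCore H hc i j
  · have := cAdd H (i * j) j
    have e : i * j + j = (i + 1) * j := by ring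
    rwa [e] at this

end

end Pool.Agent.U34.RPO
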