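import Pool.Agent.U34.RPO.Shapes

set_option autoImplicit false

/-! The combinatorics of the definition of multiplication. -/

namespace Pool.Agent.U34.RPO

theorem first_false : ∀ {z : List Bool}, 1 ≤ z.count false → ∃ n z', z = A n ++ false :: z' := by
  intro z
  induction z with
  | nil => intro h; simp at h
  | cons s z ih =>
    intro h
    cases s
    · exact ⟨0, z, rfl⟩
    · obtain ⟨n, z', rfl⟩ := ih (by simpa using h)
      exact ⟨n + 1, z', rfl⟩

theorem cntT (n : ℕ) (z : List Bool) : (A n ++ false :: z).count true = n + z.count true := by
  rw [List.count_append, List.count_cons, ca_A]; simp

theorem cntF (n : ℕ) (z : List Bool) : (A n ++ false :: z).count false = z.count false + 1 := by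
  rw [List.count_append, List.count_cons, cb_A]; simp

theorem AB_sub {n j : ℕ} : ∀ {n' : ℕ} {z : List Bool},
    (A n ++ B j).Sublist (A n' ++ false :: z) → n ≤ n' ∨ j ≤ z.count false := by
  intro n'
  induction n' generalizing n with
  | zero =>
    intro z h
    cases n with
    | zero => exact Or.inl le_rfl
    | succ n =>
      right
      rw [A_succ, List.cons_append] at h
      change (true :: (A n ++ B j)).Sublist (false :: z) at h
      rw [tf] at h
      have := h.count_le false
      simp only [List.count_cons, List.count_append, cb_A, cb_B] at this
      simpa using this
  | succ n' ih =>
    intro z h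
    cases n with
    | zero => exact Or.inl (Nat.zero_le _)
    | succ n =>
      rw [A_succ, A_succ, List.cons_append, List.cons_append,
        List.cons_sublist_cons] at h
      rcases ih h with h | h
      · exact Or.inl (by omega)
      · exact Or.inr h

theorem f_sub {u : List Bool} : ∀ {n : ℕ} {z : List Bool},
    (false :: u).Sublist (A n ++ false :: z) ↔ u.Sublist z := by
  intro n
  induction n with
  | zero => intro z; exact List.cons_sublist_cons
  | succ n ih =>
    intro z
    rw [A_succ, List.cons_append, ft]
    exact ih

theorem eq_of_counts {u z : List Bool} (h : u.Sublist z) (h1 : z.count true ≤ u.count true)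
    (h2 : z.count false ≤ u.count false) : u = z := by
  apply h.eq_of_length_le
  rw [len_count, len_count]
  omega

theorem comm_eq {n : ℕ} : ∀ (l : ℕ) (u : List Bool), u.length ≤ l →
    A n ++ false :: u = u ++ (A n ++ [false]) → u.count true = n * u.count false := by
  intro l
  induction l with
  | zero =>
    intro u h _
    have : u = [] := List.length_eq_zero_iff.1 (by omega)
    subst this
    simp
  | succ l ih =>
    intro u hl h
    have h0 : (A n ++ [false]) ++ u = u ++ (A n ++ [false]) := by simpa using h
    rcases List.append_eq_append_iff.1 h0 with ⟨v, hv, hv'⟩ | ⟨v, hv, hv'⟩
    · -- u = (A n ++ [false]) ++ v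
      have h2 : u = (A n ++ [false]) ++ v := hv
      subst h2
      have h3 : A n ++ false :: v = v ++ (A n ++ [false]) := by
        rw [List.append_assoc (A n ++ [false]) v] at h0
        have := List.append_cancel_left h0
        simpa using this
      have h4 := ih v (by
        simp only [List.length_append, List.length_replicate, List.length_singleton] at hl
        omega) h3
      simp only [List.count_append, ca_A, cb_A, List.count_singleton]
      rw [h4]
      simp
      ring
    · -- A n ++ [false] = u ++ v
      have h2 : A n ++ [false] = u ++ v := hv
      rcases v.eq_nil_or_concat with rfl | ⟨v', s, rfl⟩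
      · rw [List.append_nil] at h2
        subst h2
        simp
      · have h3 : A n = u ++ v' := by
          have h5 : A n ++ [false] = (u ++ v') ++ [s] := by rw [h2]; simp
          exact (List.append_inj' h5 rfl).1
        have h4 : ∀ x ∈ u, x = true := fun x hx => List.eq_of_mem_replicate
          (show x ∈ A n by rw [h3]; exact List.mem_append_left _ hx)
        have h5 : u = A u.length := List.eq_replicate_of_mem h4
        rcases Nat.eq_zero_or_pos u.length with h6 | h6
        · rw [List.length_eq_zero_iff] at h6
          subst h6
          simp
        · exfalso
          rw [h5] at h0
          obtain ⟨j, hj⟩ : ∃ j, u.length = j + 1 := ⟨u.length - 1, by omega⟩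
          rw [hj] at h0
          have h7 := congrArg List.getLast? h0
          rw [A_succ', ← List.append_assoc, ← List.append_assoc (A j ++ [true]),
            List.getLast?_concat, List.getLast?_concat] at h7
          simp at h7

theorem core_sound {n m k : ℕ} (hn : 1 ≤ n) {u y z : List Bool}
    (hu : u.count false = m) (hu' : u.count true = k)
    (hy : y.count false = m) (hy' : y.count true = k + n)
    (hz : z.count false = m + 1) (hz' : z.count true = k + n)
    (h1 : (false :: u).Sublist z) (h2 : (A n ++ B (m + 1)).Sublist z)
    (h3 : ¬ (B m ++ [true]).Sublist u) (h4 : (B m ++ A n).Sublist y)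
    (h5 : u.Sublist y) (h6 : y.Sublist z) (h7 : (A (k + n) ++ [false]).Sublist z) :
    k = n * m := by
  -- z = a^n b u
  have s1 : z = A n ++ false :: u := by
    obtain ⟨n', z', rfl⟩ := first_false (z := z) (by omega)
    have e1 : n ≤ n' := by
      rcases AB_sub h2 with h | h
      · exact h
      · exfalso
        rw [cntF] at hz
        omega
    rw [f_sub] at h1
    have e2 := h1.count_le true
    rw [cntT] at hz'
    rw [cntF] at hz
    have e3 : n' = n := by omega
    subst e3
    rw [eq_of_counts h1 (by omega) (by omega)]
  -- y = u a^n
  have s2 : y = u ++ A n := by
    rcases Nat.eq_zero_or_pos m with hm | hm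
    · subst hm
      have e1 : u = [] := by
        apply nil_of
        · intro h
          have := (B_sub (n := 1)).1 h
          omega
        · exact h3
      subst e1
      have e2 : ¬ [false].Sublist y := by
        intro h
        have := (B_sub (n := 1)).1 h
        omega
      obtain ⟨j, rfl⟩ := sA e2
      rw [List.count_nil] at hu'
      rw [ca_A] at hy'
      have : j = n := by omega
      rw [this, List.nil_append]
    · have e0 : 1 ≤ y.reverse.count false := by rw [List.count_reverse]; omega
      obtain ⟨n', t, ht⟩ := first_false e0
      have e1 : n ≤ n' := by
        have h8 : (A n ++ B m).Sublist y.reverse := by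
          have := h4.reverse
          simpa using this
        rw [ht] at h8
        rcases AB_sub h8 with h | h
        · exact h
        · exfalso
          have := congrArg (List.count false) ht
          rw [cntF, List.count_reverse] at this
          omega
      have h9 : ¬ (true :: B m).Sublist u.reverse := by
        intro h
        apply h3
        have := h.reverse
        simpa using this
      have h10 : ∃ v, u.reverse = false :: v := by
        rcases hr : u.reverse with _ | ⟨s, v⟩
        · exfalso
          have := congrArg (List.count false) hr
          simp at this
          omega
        · cases s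
          · exact ⟨v, rfl⟩
          · exfalso
            rw [hr, List.cons_sublist_cons] at h9
            apply h9
            rw [B_sub]
            have := congrArg (List.count false) hr
            simp at this
            omega
      obtain ⟨v, hv⟩ := h10
      have h11 : u.reverse.Sublist y.reverse := h5.reverse
      rw [hv, ht, f_sub] at h11
      have c1 := congrArg (List.count false) ht
      have c2 := congrArg (List.count true) ht
      have c3 := congrArg (List.count false) hv
      have c4 := congrArg (List.count true) hv
      have c5 := h11.count_le true
      rw [cntF, List.count_reverse] at c1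
      rw [cntT, List.count_reverse] at c2
      rw [List.count_reverse, List.count_cons_self] at c3
      rw [List.count_reverse, List.count_cons_of_ne (by decide)] at c4
      have e3 : n' = n := by omega
      subst e3
      have e4 := eq_of_counts h11 (by omega) (by omega)
      subst e4
      rw [← List.reverse_inj, ht, List.reverse_append, hv]
      simp
  -- z = y b
  have s3 : z = y ++ [false] := by
    rcases z.eq_nil_or_concat with rfl | ⟨z', s, rfl⟩
    · simp at hz
    · rw [List.concat_eq_append] at *
      cases s
      · obtain ⟨n, rfl⟩ : ∃ j, n = j + 1 := ⟨n - 1, by omega⟩
        have e1 : y.Sublist z' := by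
          rw [s2, A_succ', ← List.append_assoc] at h6 ⊢
          exact (snoc_ne (by decide)).1 h6
        rw [List.count_append] at hz hz'
        simp only [List.count_singleton] at hz hz'
        simp at hz hz'
        rw [eq_of_counts e1 (by omega) (by omega)]
      · exfalso
        have h8 : (A (k + n) ++ [false]).Sublist z' := (snoc_ne (by decide)).1 h7
        have h9 := h8.count_le true
        rw [cntT] at h9
        rw [List.count_append] at hz'
        simp at hz' h9
        omega
  have s4 : A n ++ false :: u = u ++ (A n ++ [false]) := by
    rw [← s1, s3, s2, List.append_assoc]
  have := comm_eq _ u le_rfl s4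
  rw [hu, hu'] at this
  exact this

end Pool.Agent.U34.RPO
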