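import Pool.Agent.U34.RPO.Complete
import Pool.Agent.H761R3.Sys

set_option autoImplicit false

/-! Systems of constraints between words; every recursively enumerable set is defined by one. -/

namespace Pool.Agent.U34.RPO

/-- words built from variables by adding letters at the front -/
inductive Side (Λ V : Type) : Type
  | nil : Side Λ V
  | var : V → Side Λ V
  | cons : Λ → Side Λ V → Side Λ V

def Side.val {Λ V : Type} (ρ : V → List Λ) : Side Λ V → List Λ
  | .nil => []
  | .var v => ρ v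
  | .cons s t => s :: t.val ρ

def Side.map {Λ V W : Type} (f : V → W) : Side Λ V → Side Λ W
  | .nil => .nil
  | .var v => .var (f v)
  | .cons s t => .cons s (t.map f)

/-- constraints `x ≥ y` and `¬ x ≥ y` -/
inductive Cns (Λ V : Type) : Type
  | ge : Side Λ V → Side Λ V → Cns Λ V
  | nge : Side Λ V → Side Λ V → Cns Λ V

def Cns.Holds {Λ V : Type} (P : Λ → Λ → Prop) (ρ : V → List Λ) : Cns Λ V → Prop
  | .ge x y => WGe P (x.val ρ) (y.val ρ)
  | .nge x y => ¬ WGe P (x.val ρ) (y.val ρ)

def Cns.map {Λ V W : Type} (f : V → W) : Cns Λ V → Cns Λ W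
  | .ge x y => .ge (x.map f) (y.map f)
  | .nge x y => .nge (x.map f) (y.map f)

section

variable {Λ : Type} {P : Λ → Λ → Prop} {V W : Type}

theorem Side.val_map (f : V → W) (ρ : W → List Λ) (s : Side Λ V) :
    (s.map f).val ρ = s.val (ρ ∘ f) := by
  induction s with
  | nil => rfl
  | var v => rfl
  | cons s t ih => simp [Side.map, Side.val, ih]

theorem Cns.holds_map (f : V → W) (ρ : W → List Λ) (c : Cns Λ V) :
    (c.map f).Holds P ρ ↔ c.Holds P (ρ ∘ f) := by
  cases c <;> simp [Cns.map, Cns.Holds, Side.val_map]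

/-- definable functions -/
def Wt (f : (V → List Λ) → List Λ) : Prop := ∃ s : Side Λ V, ∀ ρ, s.val ρ = f ρ

/-- definable relations -/
def Wd (P : Λ → Λ → Prop) (R : (V → List Λ) → Prop) : Prop :=
  ∃ (B : Type) (_ : Finite B) (L : List (Cns Λ (V ⊕ B))),
    ∀ ρ, R ρ ↔ ∃ τ : B → List Λ, ∀ c ∈ L, c.Holds P (Sum.elim ρ τ)

theorem Wt.nil : Wt (Λ := Λ) (V := V) (fun _ => []) := ⟨.nil, fun _ => rfl⟩

theorem Wt.var (v : V) : Wt (Λ := Λ) (fun ρ : V → List Λ => ρ v) := ⟨.var v, fun _ => rfl⟩

theorem Wt.cons {s : Λ} {f : (V → List Λ) → List Λ} (h : Wt f) : Wt (fun ρ => s :: f ρ) := by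
  obtain ⟨t, ht⟩ := h
  exact ⟨.cons s t, fun ρ => by simp [Side.val, ht]⟩

theorem Wt.reindex {f : (V → List Λ) → List Λ} (h : Wt f) (e : V → W) :
    Wt (fun ρ : W → List Λ => f (fun v => ρ (e v))) := by
  obtain ⟨t, ht⟩ := h
  exact ⟨t.map e, fun ρ => by rw [Side.val_map, ht]; rfl⟩

theorem Wd.congr {R R' : (V → List Λ) → Prop} (h : Wd P R) (e : ∀ ρ, R' ρ ↔ R ρ) : Wd P R' := by
  obtain ⟨B, i, L, hL⟩ := h
  exact ⟨B, i, L, fun ρ => (e ρ).trans (hL ρ)⟩

theorem Wd.ge {f g : (V → List Λ) → List Λ} (hf : Wt f) (hg : Wt g) :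
    Wd P (fun ρ => WGe P (f ρ) (g ρ)) := by
  obtain ⟨s, hs⟩ := hf
  obtain ⟨t, ht⟩ := hg
  refine ⟨Empty, inferInstance, [.ge (s.map Sum.inl) (t.map Sum.inl)], fun ρ => ?_⟩
  have key : ∀ τ : Empty → List Λ, Sum.elim ρ τ ∘ Sum.inl = ρ := fun τ => rfl
  constructor
  · intro h
    refine ⟨Empty.elim, fun c hc => ?_⟩
    rw [List.mem_singleton] at hc
    subst hc
    simp only [Cns.Holds, Side.val_map, key, hs, ht]
    exact h
  · rintro ⟨τ, h⟩
    have := h _ (List.mem_singleton.2 rfl)
    simp only [Cns.Holds, Side.val_map, key, hs, ht] at this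
    exact this

theorem Wd.nge {f g : (V → List Λ) → List Λ} (hf : Wt f) (hg : Wt g) :
    Wd P (fun ρ => ¬ WGe P (f ρ) (g ρ)) := by
  obtain ⟨s, hs⟩ := hf
  obtain ⟨t, ht⟩ := hg
  refine ⟨Empty, inferInstance, [.nge (s.map Sum.inl) (t.map Sum.inl)], fun ρ => ?_⟩
  have key : ∀ τ : Empty → List Λ, Sum.elim ρ τ ∘ Sum.inl = ρ := fun τ => rfl
  constructor
  · intro h
    refine ⟨Empty.elim, fun c hc => ?_⟩
    rw [List.mem_singleton] at hc
    subst hc
    simp only [Cns.Holds, Side.val_map, key, hs, ht]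
    exact h
  · rintro ⟨τ, h⟩
    have := h _ (List.mem_singleton.2 rfl)
    simp only [Cns.Holds, Side.val_map, key, hs, ht] at this
    exact this

theorem Wd.true : Wd P (fun _ : V → List Λ => True) :=
  ⟨Empty, inferInstance, [], fun _ => ⟨fun _ => ⟨Empty.elim, by simp⟩, fun _ => trivial⟩⟩

theorem Wd.and {R R' : (V → List Λ) → Prop} (h : Wd P R) (h' : Wd P R') :
    Wd P (fun ρ => R ρ ∧ R' ρ) := by
  obtain ⟨B, i, L, hL⟩ := h
  obtain ⟨B', i', L', hL'⟩ := h'
  refine ⟨B ⊕ B', inferInstance, L.map (Cns.map (Sum.map id Sum.inl)) ++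
    L'.map (Cns.map (Sum.map id Sum.inr)), fun ρ => ?_⟩
  have k1 : ∀ τ : B ⊕ B' → List Λ, Sum.elim ρ τ ∘ Sum.map id Sum.inl = Sum.elim ρ (τ ∘ Sum.inl) := by
    intro τ; funext x; rcases x with x | x <;> rfl
  have k2 : ∀ τ : B ⊕ B' → List Λ, Sum.elim ρ τ ∘ Sum.map id Sum.inr = Sum.elim ρ (τ ∘ Sum.inr) := by
    intro τ; funext x; rcases x with x | x <;> rfl
  change R ρ ∧ R' ρ ↔ _
  rw [hL, hL']
  constructor
  · rintro ⟨⟨τ, hτ⟩, ⟨τ', hτ'⟩⟩
    refine ⟨Sum.elim τ τ', fun c hc => ?_⟩
    rcases List.mem_append.1 hc with hc | hc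
    · obtain ⟨c', hc', rfl⟩ := List.mem_map.1 hc
      rw [Cns.holds_map, k1]
      exact hτ c' hc'
    · obtain ⟨c', hc', rfl⟩ := List.mem_map.1 hc
      rw [Cns.holds_map, k2]
      exact hτ' c' hc'
  · rintro ⟨τ, h⟩
    refine ⟨⟨τ ∘ Sum.inl, fun c hc => ?_⟩, ⟨τ ∘ Sum.inr, fun c hc => ?_⟩⟩
    · have := h _ (List.mem_append_left _ (List.mem_map_of_mem hc))
      rwa [Cns.holds_map, k1] at this
    · have := h _ (List.mem_append_right _ (List.mem_map_of_mem hc))
      rwa [Cns.holds_map, k2] at this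

theorem Wd.ex {R : (V → List Λ) → List Λ → Prop}
    (h : Wd P (fun ρ : Option V → List Λ => R (fun v => ρ (some v)) (ρ none))) :
    Wd P (fun ρ => ∃ x, R ρ x) := by
  obtain ⟨B, i, L, hL⟩ := h
  let e : Option V ⊕ B → V ⊕ Option B := fun x => match x with
    | .inl none => .inr none
    | .inl (some v) => .inl v
    | .inr b => .inr (some b)
  refine ⟨Option B, inferInstance, L.map (Cns.map e), fun ρ => ?_⟩
  have k1 : ∀ τ : Option B → List Λ, Sum.elim ρ τ ∘ e =
      Sum.elim (fun o => o.elim (τ none) ρ) (fun b => τ (some b)) := by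
    intro τ; funext x; rcases x with (_ | x) | x <;> rfl
  constructor
  · rintro ⟨x, hx⟩
    obtain ⟨τ, hτ⟩ := (hL (fun o => o.elim x ρ)).1 hx
    refine ⟨fun o => o.elim x τ, fun c hc => ?_⟩
    obtain ⟨c', hc', rfl⟩ := List.mem_map.1 hc
    rw [Cns.holds_map, k1]
    exact hτ c' hc'
  · rintro ⟨τ, h⟩
    refine ⟨τ none, ?_⟩
    refine (hL (fun o => o.elim (τ none) ρ)).2 ⟨fun b => τ (some b), fun c hc => ?_⟩
    have := h _ (List.mem_map_of_mem hc)
    rwa [Cns.holds_map, k1] at this

theorem Wd.list {γ : Type} {R : γ → (V → List Λ) → Prop} (L : List γ)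
    (h : ∀ c ∈ L, Wd P (R c)) : Wd P (fun ρ => ∀ c ∈ L, R c ρ) := by
  induction L with
  | nil => exact Wd.true.congr (by simp)
  | cons c L ih =>
    refine ((h c List.mem_cons_self).and (ih fun c hc => h c (List.mem_cons_of_mem _ hc))).congr ?_
    intro ρ
    simp

variable {a b : Λ}

theorem wdAdd {f g h : (V → List Λ) → List Λ} (hf : Wt f) (hg : Wt g) (hh : Wt h) :
    Wd P (fun ρ => Add P a b (f ρ) (g ρ) (h ρ)) := by
  unfold Add IsA IsX IsR IsL
  repeat' first
    | exact hf
    | exact hg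
    | exact hh
    | exact Wt.nil
    | exact Wt.var _
    | exact hf.reindex _
    | exact hg.reindex _
    | exact hh.reindex _
    | apply Wt.cons
    | apply Wd.and
    | apply Wd.ge
    | apply Wd.nge
    | (apply Wd.ex; beta_reduce)

theorem wdGen {c : Bool} {f g h : (V → List Λ) → List Λ} (hf : Wt f) (hg : Wt g) (hh : Wt h) :
    Wd P (fun ρ => Gen P a b c (f ρ) (g ρ) (h ρ)) := by
  unfold Gen IsY
  cases c
  · simp only [IsW, cond_false]
    unfold IsW0
    repeat' first
      | exact hf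
      | exact hg
      | exact hh
      | exact Wt.nil
      | exact Wt.var _
      | exact hf.reindex _
      | exact hg.reindex _
      | exact hh.reindex _
      | apply Wt.cons
      | apply Wd.and
      | apply Wd.ge
      | apply Wd.nge
      | (apply Wd.ex; beta_reduce)
  · simp only [IsW, cond_true]
    unfold IsY
    repeat' first
      | exact hf
      | exact hg
      | exact hh
      | exact Wt.nil
      | exact Wt.var _
      | exact hf.reindex _
      | exact hg.reindex _
      | exact hh.reindex _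
      | apply Wt.cons
      | apply Wd.and
      | apply Wd.ge
      | apply Wd.nge
      | (apply Wd.ex; beta_reduce)

theorem wdLnk {f g : (V → List Λ) → List Λ} (hf : Wt f) (hg : Wt g) :
    Wd P (fun ρ => Lnk P a b (f ρ) (g ρ)) := by
  unfold Lnk IsR
  repeat' first
    | exact hf
    | exact hg
    | exact Wt.nil
    | apply Wt.cons
    | apply Wd.and
    | apply Wd.ge
    | apply Wd.nge

theorem wdCore {c : Bool} {f g h : (V → List Λ) → List Λ} (hf : Wt f) (hg : Wt g) (hh : Wt h) :
    Wd P (fun ρ => Core P a b c (f ρ) (g ρ) (h ρ)) := by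
  unfold Core IsA IsB IsP IsY IsQ IsS
  repeat' first
    | exact hf
    | exact hg
    | exact hh
    | exact Wt.nil
    | exact Wt.var _
    | exact hf.reindex _
    | exact hg.reindex _
    | exact hh.reindex _
    | apply Wt.cons
    | apply wdAdd
    | apply wdGen
    | apply wdLnk
    | apply Wd.and
    | apply Wd.ge
    | apply Wd.nge
    | (apply Wd.ex; beta_reduce)

theorem wdMul {c : Bool} {f g h : (V → List Λ) → List Λ} (hf : Wt f) (hg : Wt g) (hh : Wt h) :
    Wd P (fun ρ => Mul P a b c (f ρ) (g ρ) (h ρ)) := by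
  unfold Mul IsA
  repeat' first
    | exact hf
    | exact hg
    | exact hh
    | exact Wt.nil
    | exact Wt.var _
    | exact hf.reindex _
    | exact hg.reindex _
    | exact hh.reindex _
    | apply Wt.cons
    | apply wdAdd
    | apply wdCore
    | apply Wd.and
    | apply Wd.nge
    | (apply Wd.ex; beta_reduce)

/-- the number one -/
def One (P : Λ → Λ → Prop) (a b : Λ) (z : List Λ) : Prop :=
  IsA P b z ∧ WGe P z [a] ∧ ¬ WGe P z [a, a]

theorem wdOne {f : (V → List Λ) → List Λ} (hf : Wt f) : Wd P (fun ρ => One P a b (f ρ)) := by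
  unfold One IsA
  repeat' first
    | exact hf
    | exact Wt.nil
    | apply Wt.cons
    | apply Wd.and
    | apply Wd.ge
    | apply Wd.nge

theorem One.sk (H : Hyp P a b) {z : List Λ} (h : One P a b z) : RPO.sk a b z = A 1 := by
  obtain ⟨h1, h2, h3⟩ := h
  obtain ⟨n, hn⟩ := h1.sk H
  have g1 := (cst H z [true]).1 h2
  have g2 : ¬ (A 2).Sublist (RPO.sk a b z) := fun h => h3 ((cst H z [true, true]).2 h)
  rw [hn] at g1 g2 ⊢
  have e1 : 1 ≤ n := by
    have := g1.length_le
    simpa using this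
  have e2 : ¬ 2 ≤ n := fun h => g2 (A_le h)
  have : n = 1 := by omega
  rw [this]

theorem cOne (H : Hyp P a b) : One P a b (nf a b (A 1)) := by
  refine ⟨cIsA H (sk_nf H.ne _), (nn H _ [true]).2 (List.Sublist.refl _), fun h => ?_⟩
  have := (nn H _ [true, true]).1 h
  have := this.length_le
  simp at this

open Pool.Agent.H761R3.Sys in
/-- the translation of a constraint between numbers -/
def WCon (P : Λ → Λ → Prop) (a b : Λ) (c : Bool) (z : ℕ → List Λ) : Con → Prop
  | .add i j l => Add P a b (z i) (z j) (z l)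
  | .one i => One P a b (z i)
  | .mul i j l => Mul P a b c (z i) (z j) (z l)

open Pool.Agent.H761R3.Sys in
theorem word_main (H : Hyp P a b) {S : ℕ → Prop} (hS : REPred S) :
    ∃ (V : Type) (_ : Finite V) (v0 : V) (L : List (Cns Λ V)),
      ∀ n, S n ↔ ∃ ρ : V → List Λ, ρ v0 = nf a b (A n) ∧ ∀ c ∈ L, c.Holds P ρ := by
  obtain ⟨c, hc⟩ : ∃ c, Third a b c := by
    by_cases h : ∃ h, h ≠ a ∧ h ≠ b
    · exact ⟨true, h⟩
    · refine ⟨false, fun s => ?_⟩
      by_contra h2
      push Not at h2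
      exact h ⟨s, h2⟩
  obtain ⟨k, L, hk, hL, hSL⟩ := exists_sys S hS
  let ext : (Fin k → List Λ) → ℕ → List Λ := fun z i => if h : i < k then z ⟨i, h⟩ else []
  have hwt : ∀ i, Wt (fun z : Fin k → List Λ => ext z i) := by
    intro i
    by_cases h : i < k
    · have : (fun z : Fin k → List Λ => ext z i) = fun z => z ⟨i, h⟩ := by
        funext z; simp [ext, h]
      rw [this]
      exact Wt.var _
    · have : (fun z : Fin k → List Λ => ext z i) = fun z => [] := by
        funext z; simp [ext, h]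
      rw [this]
      exact Wt.nil
  have hwd : Wd P (fun z : Fin k → List Λ => ∀ d ∈ L, WCon P a b c (ext z) d) := by
    refine Wd.list L fun d _ => ?_
    cases d with
    | add i j l => exact wdAdd (hwt i) (hwt j) (hwt l)
    | one i => exact wdOne (hwt i)
    | mul i j l => exact wdMul (hwt i) (hwt j) (hwt l)
  obtain ⟨B, _, L', hL'⟩ := hwd
  refine ⟨Fin k ⊕ B, inferInstance, Sum.inl ⟨0, by omega⟩, L', fun n => ?_⟩
  rw [hSL]
  constructor
  · rintro ⟨x, hx0, hx⟩
    have h1 : ∀ d ∈ L, WCon P a b c (ext fun i => nf a b (A (x i))) d := by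
      intro d hd
      have h2 := hL d hd
      have h3 := hx d hd
      have h4 : ∀ i, i < k → ext (fun i => nf a b (A (x i))) i = nf a b (A (x i)) := by
        intro i hi; simp [ext, hi]
      cases d with
      | add i j l =>
        simp only [WCon, h4 i h2.1, h4 j h2.2.1, h4 l h2.2.2]
        change x i + x j = x l at h3
        rw [← h3]
        exact cAdd H _ _
      | one i =>
        simp only [WCon, h4 i h2]
        change x i = 1 at h3
        rw [h3]
        exact cOne H
      | mul i j l =>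
        simp only [WCon, h4 i h2.1, h4 j h2.2.1, h4 l h2.2.2]
        change x i * x j = x l at h3
        rw [← h3]
        exact cMul H hc _ _
    obtain ⟨τ, hτ⟩ := (hL' (fun i : Fin k => nf a b (A (x i)))).1 h1
    exact ⟨_, by simp [hx0], hτ⟩
  · rintro ⟨ρ, h0, hρ⟩
    have h1 := (hL' (ρ ∘ Sum.inl)).2 ⟨ρ ∘ Sum.inr, by rwa [Sum.elim_comp_inl_inr]⟩
    refine ⟨fun i => (RPO.sk a b (ext (ρ ∘ Sum.inl) i)).length, ?_, fun d hd => ?_⟩
    · have : ext (ρ ∘ Sum.inl) 0 = nf a b (A n) := by
        have h : 0 < k := by omega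
        simp [ext, h, h0]
      simp only [this, sk_nf H.ne]
      simp
    · have h2 := h1 d hd
      cases d with
      | add i j l =>
        obtain ⟨p, q, e1, e2, e3⟩ := Add.sk H h2
        simp only [Con.Holds, e1, e2, e3]
        simp
      | one i =>
        simp only [Con.Holds, One.sk H h2]
        simp
      | mul i j l =>
        obtain ⟨p, q, e1, e2, e3⟩ := Mul.sk H hc h2
        simp only [Con.Holds, e1, e2, e3]
        simp

end

end Pool.Agent.U34.RPO
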