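import Mathlib

set_option autoImplicit false

/-!
# The recursive path ordering with status: definitions

A finite signature is given by a number `N` of function symbols, the symbols are the elements of
`Fin N`, and by the arities `ar : Fin N → ℕ`.  The precedence is a relation `prec` on the symbols
(`prec s s'` means `s ≻ s'`), and `mul s` means that the symbol `s` has status `mul`; the other
symbols have status `lex`.
-/

namespace Pool.Agent.U34.RPO

/-- Ground terms. -/
inductive GT {N : ℕ} (ar : Fin N → ℕ) : Type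
  | app (s : Fin N) (x : Fin (ar s) → GT ar) : GT ar

/-- Terms with variables from `V`. -/
inductive Tm {N : ℕ} (ar : Fin N → ℕ) (V : Type) : Type
  | var (v : V) : Tm ar V
  | app (s : Fin N) (x : Fin (ar s) → Tm ar V) : Tm ar V

/-- The congruence generated by permuting the arguments of the symbols with status `mul`. -/
inductive Eqv {N : ℕ} {ar : Fin N → ℕ} (mul : Fin N → Prop) : GT ar → GT ar → Prop
  | congr (s : Fin N) (x y : Fin (ar s) → GT ar) (h : ∀ i, Eqv mul (x i) (y i)) :
      Eqv mul (.app s x) (.app s y)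
  | perm (s : Fin N) (x : Fin (ar s) → GT ar) (hs : mul s) (π : Equiv.Perm (Fin (ar s))) :
      Eqv mul (.app s x) (.app s fun i => x (π i))
  | symm (t t' : GT ar) (h : Eqv mul t t') : Eqv mul t' t
  | trans (t t' t'' : GT ar) (h : Eqv mul t t') (h' : Eqv mul t' t'') : Eqv mul t t''

/-- The recursive path ordering `>` with status.  `arg`, `argEqv` are clause 1 (`x i > t` or
`x i ≈ t`), `prec` is clause 2, `lex` and `mset` are clause 3.  In `lex` the arguments are compared
lexicographically: `x i ≈ y i` for `i < k` and `x k > y k`.  In `mset` they are compared by the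
multiset extension of `>` modulo `≈`: the occurrences `x i`, `i ∈ K`, are matched by the injection
`e` to occurrences `y (e i) ≈ x i`, the set `K` is not everything, and every occurrence `y j` which
is not matched is smaller than some `x (w j)` with `w j ∉ K`. -/
inductive Rpo {N : ℕ} {ar : Fin N → ℕ} (prec : Fin N → Fin N → Prop) (mul : Fin N → Prop) :
    GT ar → GT ar → Prop
  | arg (s : Fin N) (x : Fin (ar s) → GT ar) (t : GT ar) (i : Fin (ar s))
      (h : Rpo prec mul (x i) t) : Rpo prec mul (.app s x) t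
  | argEqv (s : Fin N) (x : Fin (ar s) → GT ar) (t : GT ar) (i : Fin (ar s))
      (h : Eqv mul (x i) t) : Rpo prec mul (.app s x) t
  | prec (s s' : Fin N) (x : Fin (ar s) → GT ar) (y : Fin (ar s') → GT ar) (hp : prec s s')
      (h : ∀ j, Rpo prec mul (.app s x) (y j)) : Rpo prec mul (.app s x) (.app s' y)
  | lex (s : Fin N) (x y : Fin (ar s) → GT ar) (hs : ¬ mul s)
      (h : ∀ j, Rpo prec mul (.app s x) (y j)) (k : Fin (ar s))
      (he : ∀ i, i < k → Eqv mul (x i) (y i)) (hk : Rpo prec mul (x k) (y k)) :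
      Rpo prec mul (.app s x) (.app s y)
  | mset (s : Fin N) (x y : Fin (ar s) → GT ar) (hs : mul s)
      (h : ∀ j, Rpo prec mul (.app s x) (y j)) (K : Finset (Fin (ar s)))
      (e w : Fin (ar s) → Fin (ar s)) (hK : K ≠ Finset.univ) (hinj : Set.InjOn e K)
      (he : ∀ i ∈ K, Eqv mul (x i) (y (e i))) (hw : ∀ j, (∀ i ∈ K, e i ≠ j) → w j ∉ K)
      (hk : ∀ j, (∀ i ∈ K, e i ≠ j) → Rpo prec mul (x (w j)) (y j)) :
      Rpo prec mul (.app s x) (.app s y)

/-- The value of a term under an assignment. -/
def Tm.val {N : ℕ} {ar : Fin N → ℕ} {V : Type} (ρ : V → GT ar) : Tm ar V → GT ar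
  | .var v => ρ v
  | .app s x => .app s fun i => (x i).val ρ

/-- Quantifier-free formulas over the function symbols, `=` and `>`. -/
inductive QF {N : ℕ} (ar : Fin N → ℕ) (V : Type) : Type
  | eq (u v : Tm ar V) : QF ar V
  | gt (u v : Tm ar V) : QF ar V
  | not (φ : QF ar V) : QF ar V
  | and (φ ψ : QF ar V) : QF ar V
  | or (φ ψ : QF ar V) : QF ar V

/-- Truth of a quantifier-free formula under an assignment; `>` is the recursive path ordering. -/
def QF.Sat {N : ℕ} {ar : Fin N → ℕ} (prec : Fin N → Fin N → Prop) (mul : Fin N → Prop) {V : Type}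
    (ρ : V → GT ar) : QF ar V → Prop
  | .eq u v => u.val ρ = v.val ρ
  | .gt u v => Rpo prec mul (u.val ρ) (v.val ρ)
  | .not φ => ¬ φ.Sat prec mul ρ
  | .and φ ψ => φ.Sat prec mul ρ ∧ ψ.Sat prec mul ρ
  | .or φ ψ => φ.Sat prec mul ρ ∨ ψ.Sat prec mul ρ

/-- Code of a term (Polish notation): the variable `n` is `2 n`, the symbol `s` is `2 s + 1`. -/
def Tm.code {N : ℕ} {ar : Fin N → ℕ} : Tm ar ℕ → List ℕ
  | .var n => [2 * n]
  | .app s x => (2 * s.val + 1) :: (List.ofFn fun i => (x i).code).flatten

/-- Code of a quantifier-free formula (Polish notation). -/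
def QF.code {N : ℕ} {ar : Fin N → ℕ} : QF ar ℕ → List ℕ
  | .eq u v => 0 :: (u.code ++ v.code)
  | .gt u v => 1 :: (u.code ++ v.code)
  | .not φ => 2 :: φ.code
  | .and φ ψ => 3 :: (φ.code ++ ψ.code)
  | .or φ ψ => 4 :: (φ.code ++ ψ.code)

/-- The existential closure of the formula `φ` is true in the structure of the ground terms with the
recursive path ordering. -/
def ExTrue {N : ℕ} {ar : Fin N → ℕ} (prec : Fin N → Fin N → Prop) (mul : Fin N → Prop)
    (φ : QF ar ℕ) : Prop := ∃ ρ : ℕ → GT ar, φ.Sat prec mul ρ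

end Pool.Agent.U34.RPO
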