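import Pool.Agent.U34.RPO.Terms

set_option autoImplicit false

/-! The terms of words are the terms which do not dominate finitely many forbidden terms. -/

namespace Pool.Agent.U34.RPO

section

variable {N : ℕ} {ar : Fin N → ℕ} {prec : Fin N → Fin N → Prop} {mul : Fin N → Prop}
variable {f g c : Fin N}

/-- reflexive closure of the ordering -/
def Ge (prec : Fin N → Fin N → Prop) (mul : Fin N → Prop) (t t' : GT ar) : Prop :=
  t = t' ∨ Rpo prec mul t t'

theorem rpo_of_ge {s : Fin N} {x : Fin (ar s) → GT ar} {t : GT ar} (i : Fin (ar s))
    (h : Ge prec mul (x i) t) : Rpo prec mul (.app s x) t := by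
  rcases h with h | h
  · exact .argEqv _ _ _ i (by rw [h]; exact Eqv.rfl' _)
  · exact .arg _ _ _ i h

theorem ge_app {s : Fin N} {x y : Fin (ar s) → GT ar} (h : ∀ i, Ge prec mul (x i) (y i)) :
    Ge prec mul (.app s x) (.app s y) := by
  classical
  by_cases hxy : x = y
  · exact Or.inl (by rw [hxy])
  · right
    obtain ⟨i0, hi0⟩ := Function.ne_iff.1 hxy
    have h1 : ∀ j, Rpo prec mul (.app s x) (y j) := fun j => rpo_of_ge j (h j)
    by_cases hm : mul s
    · refine .mset _ _ _ hm h1 (Finset.univ.filter fun i => x i = y i) id id ?_ ?_ ?_ ?_ ?_
      · intro h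
        have := Finset.mem_univ i0
        rw [← h, Finset.mem_filter] at this
        exact hi0 this.2
      · exact Function.injective_id.injOn
      · intro i hi
        rw [(Finset.mem_filter.1 hi).2]
        exact Eqv.rfl' _
      · intro j hj hj'
        exact hj j hj' rfl
      · intro j hj
        rcases h j with h | h
        · exact absurd rfl (hj j (Finset.mem_filter.2 ⟨Finset.mem_univ _, h⟩))
        · exact h
    · obtain ⟨k, hk, hmin⟩ : ∃ k, x k ≠ y k ∧ ∀ i < k, x i = y i := by
        obtain ⟨k, hk, hmin⟩ := wellFounded_lt.has_min {i : Fin (ar s) | x i ≠ y i} ⟨i0, hi0⟩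
        exact ⟨k, hk, fun i hi => by
          by_contra h
          exact hmin i h hi⟩
      refine .lex _ _ _ hm h1 k (fun i hi => ?_) ((h k).resolve_left hk)
      rw [hmin i hi]
      exact Eqv.rfl' _

/-- every term dominates a constant -/
theorem exists_leaf : ∀ t : GT ar, ∃ (e : Fin N) (he : ar e = 0), Ge prec mul t (ct e he)
  | .app s x => by
    rcases Nat.eq_zero_or_pos (ar s) with h | h
    · exact ⟨s, h, Or.inl (eq_ct h x)⟩
    · obtain ⟨e, he, h1⟩ := exists_leaf (x ⟨0, h⟩)
      exact ⟨e, he, Or.inr (rpo_of_ge ⟨0, h⟩ h1)⟩

/-- the symbols that occur in the terms of words -/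
def Good (ar : Fin N → ℕ) (prec : Fin N → Fin N → Prop) (f g c s : Fin N) : Prop :=
  s = c ∨ s = f ∨ s = g ∨ (ar s = 1 ∧ prec f s)

open Classical in
/-- forbidden terms, first kind: a symbol which is not good, applied to constants -/
noncomputable def forb1 (hc : ar c = 0) (z : Σ s : Fin N, Fin (ar s) → Fin N) : GT ar :=
  .app z.1 fun i => if h : ar (z.2 i) = 0 then ct (z.2 i) h else ct c hc

open Classical in
/-- forbidden terms, second kind: a letter at a place other than the last -/
noncomputable def forb2 (hc : ar c = 0) (z : (Σ s : Fin N, Fin (ar s)) × Lt ar prec f g) : GT ar :=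
  .app z.1.1 fun j => if j = z.1.2 then emb hc [z.2] else ct c hc

/-- the set of the forbidden terms -/
def Forb (hc : ar c = 0) (prec : Fin N → Fin N → Prop) (f g : Fin N) : Set (GT ar) :=
  {v | (∃ z, v = forb1 hc z ∧ ¬ Good ar prec f g c z.1) ∨
    ∃ z : (Σ s : Fin N, Fin (ar s)) × Lt ar prec f g, v = forb2 hc z ∧
      (z.1.1 = f ∨ z.1.1 = g) ∧ z.1.2.val + 1 ≠ ar z.1.1}

theorem forb_finite (hc : ar c = 0) : (Forb hc prec f g).Finite := by
  classical
  have : Finite (Lt ar prec f g) := Subtype.finite
  refine ((Set.finite_range (forb1 (ar := ar) hc)).union
    (Set.finite_range (forb2 (ar := ar) (prec := prec) (f := f) (g := g) hc))).subset ?_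
  rintro v (⟨z, rfl, -⟩ | ⟨z, rfl, -⟩)
  · exact Or.inl ⟨z, rfl⟩
  · exact Or.inr ⟨z, rfl⟩

theorem lt_good {s : Lt ar prec f g} : Good ar prec f g c s.1 := Or.inr s.2

/-- the terms of words dominate no forbidden term -/
theorem forb_emb (H : Ass ar prec mul f g c) (l : List (Lt ar prec f g)) :
    ∀ v ∈ Forb H.hc prec f g, ¬ Ge prec mul (emb H.hc l) v := by
  have ne1 : ∀ v ∈ Forb H.hc prec f g, ∀ l : List (Lt ar prec f g), v ≠ emb H.hc l := by
    rintro v (⟨z, rfl, hz⟩ | ⟨z, rfl, hz, hz'⟩) l h
    · cases l with
      | nil =>
        apply hz
        unfold forb1 emb ct at h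
        injection h with h1
        exact Or.inl h1
      | cons r l =>
        apply hz
        unfold forb1 emb at h
        injection h with h1
        rw [h1]
        exact lt_good
    · cases l with
      | nil =>
        unfold forb2 emb ct at h
        injection h with h1
        have := z.1.2.2
        have h2 := H.hc
        rw [← h1] at h2
        omega
      | cons r l =>
        obtain ⟨⟨s, i⟩, q⟩ := z
        unfold forb2 emb at h
        have h1 : s = r.1 := by injection h
        subst h1
        have h2 := by injection h
        have h3 := congrFun h2 i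
        simp only [if_true] at h3
        rw [ctx_ne _ hz'] at h3
        exact emb_cons_ne H q [] h3
  induction l with
  | nil =>
    intro v hv h
    rcases h with h | h
    · exact ne1 v hv [] h.symm
    · exact not_rpo_ct H _ h
  | cons r l ih =>
    intro v hv h
    rcases h with h | h
    · exact ne1 v hv _ h.symm
    · have hlast : ∀ i : Fin (ar r.1), i.val + 1 ≠ ar r.1 →
          ∀ t, Rpo prec mul (ctx H.hc r.1 (emb H.hc l) i) t → False := by
        intro i hi t ht
        rw [ctx_ne _ hi] at ht
        exact not_rpo_ct H _ ht
      generalize hT : emb H.hc (r :: l) = T at h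
      cases h with
      | arg s x t i h =>
        unfold emb at hT
        have h1 : r.1 = s := by injection hT
        subst h1
        have h2 : ctx H.hc r.1 (emb H.hc l) = x := by injection hT
        subst h2
        by_cases hi : i.val + 1 = ar r.1
        · rw [ctx_last _ hi] at h
          exact ih v hv (Or.inr h)
        · exact hlast i hi _ h
      | argEqv s x t i h =>
        unfold emb at hT
        have h1 : r.1 = s := by injection hT
        subst h1
        have h2 : ctx H.hc r.1 (emb H.hc l) = x := by injection hT
        subst h2
        by_cases hi : i.val + 1 = ar r.1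
        · rw [ctx_last _ hi] at h
          exact ne1 v hv l ((eqv_emb H h l).1 rfl)
        · rw [ctx_ne _ hi] at h
          exact ne1 v hv [] ((eqv_emb H h []).1 rfl)
      | prec s s' x y hp h =>
        unfold emb at hT
        have h1 : r.1 = s := by injection hT
        subst h1
        rcases hv with ⟨z, hz, hz'⟩ | ⟨z, hz, hz', -⟩
        · unfold forb1 at hz
          have h3 : s' = z.1 := by injection hz
          apply hz'
          rw [← h3]
          have h4 : prec f s' ∨ prec g s' := by
            rcases r with ⟨r, rfl | rfl | ⟨h5, h6⟩⟩
            · exact Or.inl hp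
            · exact Or.inr hp
            · exact Or.inl (H.tr _ _ _ h6 hp)
          rcases H.low s' h4 with h5 | h5
          · right; right; right
            refine ⟨h5, ?_⟩
            rcases h4 with h4 | h4
            · exact h4
            · exact (H.both s' h5).2 h4
          · exact Or.inl h5
        · unfold forb2 at hz
          have h3 : s' = z.1.1 := by injection hz
          rw [← h3] at hz'
          rcases hz' with rfl | rfl
          · exact H.hyp.maxa r hp
          · exact H.hyp.maxb r hp
      | lex s x y hs h k he hk =>
        unfold emb at hT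
        have h1 : r.1 = s := by injection hT
        subst h1
        have h2 : ctx H.hc r.1 (emb H.hc l) = x := by injection hT
        subst h2
        rcases hv with ⟨z, hz, hz'⟩ | ⟨z, hz, hz', hz''⟩
        · unfold forb1 at hz
          have h3 : r.1 = z.1 := by injection hz
          apply hz'
          rw [← h3]
          exact lt_good
        · obtain ⟨⟨s, i⟩, q⟩ := z
          unfold forb2 at hz
          have h3 : r.1 = s := by injection hz
          subst h3
          have h4 := by injection hz
          by_cases hi : k.val + 1 = ar r.1
          · have h5 : i < k := by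
              have := i.2
              change i.val < k.val
              change i.val + 1 ≠ ar r.1 at hz''
              omega
            have h6 := he i h5
            rw [ctx_ne _ hz'', h4] at h6
            simp only [if_true] at h6
            exact emb_cons_ne H q [] (((eqv_emb H h6 []).1 rfl))
          · exact hlast k hi _ hk
      | mset s x y hs h K e w hK hinj he hw hk =>
        unfold emb at hT
        have h1 : r.1 = s := by injection hT
        subst h1
        have h5 : ar r.1 = 1 := H.lt_mul r hs
        rcases hv with ⟨z, hz, hz'⟩ | ⟨z, hz, hz', hz''⟩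
        · unfold forb1 at hz
          have h3 : r.1 = z.1 := by injection hz
          apply hz'
          rw [← h3]
          exact lt_good
        · unfold forb2 at hz
          have h3 : r.1 = z.1.1 := by injection hz
          have h6 : ar z.1.1 = 1 := by rw [← h3]; exact h5
          have := z.1.2.2
          omega

/-- the terms which dominate no forbidden term are the terms of words -/
theorem emb_of_forb (H : Ass ar prec mul f g c) : ∀ t : GT ar,
    (∀ v ∈ Forb H.hc prec f g, ¬ Ge prec mul t v) →
      ∃ l : List (Lt ar prec f g), t = emb H.hc l
  | .app s x => by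
    classical
    intro hv
    have hx : ∀ i, ∃ l : List (Lt ar prec f g), x i = emb H.hc l := by
      intro i
      apply emb_of_forb H (x i)
      intro v hv' h
      exact hv v hv' (Or.inr (rpo_of_ge i h))
    choose l hl using hx
    by_cases hs : Good ar prec f g c s
    · rcases hs with rfl | hs
      · exact ⟨[], eq_ct H.hc x⟩
      · obtain ⟨i, hi⟩ := exists_last (H.lt_pos ⟨s, hs⟩)
        change i.val + 1 = ar s at hi
        refine ⟨⟨s, hs⟩ :: l i, ?_⟩
        change GT.app s x = GT.app s (ctx H.hc s (emb H.hc (l i)))
        congr 1
        funext j
        by_cases hj : j.val + 1 = ar s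
        · have : j = i := Fin.ext (by omega)
          subst this
          rw [ctx_last _ hj, hl]
        · rw [ctx_ne _ hj, hl]
          rcases hlj : l j with _ | ⟨q, l'⟩
          · rfl
          · exfalso
            have hfg : s = f ∨ s = g := by
              rcases hs with h | h | ⟨h, -⟩
              · exact Or.inl h
              · exact Or.inr h
              · have := j.2
                omega
            refine hv (forb2 H.hc (⟨s, j⟩, q)) (Or.inr ⟨_, rfl, hfg, hj⟩) ?_
            unfold forb2
            apply ge_app
            intro i'
            by_cases h : i' = j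
            · subst h
              simp only [if_true]
              rw [hl, hlj]
              refine (ge_emb H _ _).2 (WGe.cons _ ?_)
              cases l' with
              | nil => exact Or.inl rfl
              | cons _ _ => exact Or.inr (.nil _ _)
            · simp only [if_neg h]
              rw [hl]
              exact emb_ge_ct H _
    · exfalso
      choose e he hle using fun i => exists_leaf (prec := prec) (mul := mul) (x i)
      refine hv (forb1 H.hc ⟨s, e⟩) (Or.inl ⟨_, rfl, hs⟩) ?_
      unfold forb1
      apply ge_app
      intro i
      simp only [dif_pos (he i)]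
      exact hle i

theorem emb_iff (H : Ass ar prec mul f g c) (t : GT ar) :
    (∀ v ∈ Forb H.hc prec f g, ¬ Ge prec mul t v) ↔
      ∃ l : List (Lt ar prec f g), t = emb H.hc l :=
  ⟨emb_of_forb H t, by rintro ⟨l, rfl⟩; exact forb_emb H l⟩

end

end Pool.Agent.U34.RPO
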