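import Pool.Agent.U34.RPO.Code
import Pool.Agent.U34.RPO.Forb
import Pool.Agent.U34.RPO.Defin

set_option autoImplicit false

/-! The reduction. -/

namespace Pool.Agent.U34.RPO

section

variable {N : ℕ} {ar : Fin N → ℕ} {prec : Fin N → Fin N → Prop} {mul : Fin N → Prop}
variable {f g c : Fin N} {V : Type}

/-- a constant as a term -/
def ctT (c : Fin N) (hc : ar c = 0) : Tm ar V := .app c fun i => (Fin.cast hc i).elim0

theorem ctT_val (hc : ar c = 0) (ρ : V → GT ar) : (ctT c hc : Tm ar V).val ρ = ct c hc := eq_ct hc _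

/-- a ground term as a term -/
def gt2t : GT ar → Tm ar V
  | .app s x => .app s fun i => gt2t (x i)

theorem gt2t_val (ρ : V → GT ar) : ∀ t : GT ar, (gt2t t : Tm ar V).val ρ = t
  | .app s x => by
    change GT.app s (fun i => (gt2t (x i) : Tm ar V).val ρ) = _
    congr 1
    funext i
    exact gt2t_val ρ (x i)

/-- the translation of the sides of constraints -/
def tmS (hc : ar c = 0) {W : Type} (ι : V → W) : Side (Lt ar prec f g) V → Tm ar W
  | .nil => ctT c hc
  | .var v => .var (ι v)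
  | .cons s t => .app s.1 fun i => if i.val + 1 = ar s.1 then tmS hc ι t else ctT c hc

theorem tmS_val {W : Type} (hc : ar c = 0) (ι : V → W) (ρ : W → GT ar)
    (σ : V → List (Lt ar prec f g)) (h : ∀ v, ρ (ι v) = emb hc (σ v)) :
    ∀ t : Side (Lt ar prec f g) V, (tmS hc ι t).val ρ = emb hc (t.val σ)
  | .nil => ctT_val hc ρ
  | .var v => h v
  | .cons s t => by
    change GT.app s.1 (fun i => Tm.val ρ (if i.val + 1 = ar s.1 then tmS hc ι t else ctT c hc)) =
      GT.app s.1 (ctx hc s.1 (emb hc (t.val σ)))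
    congr 1
    funext i
    by_cases hi : i.val + 1 = ar s.1
    · rw [if_pos hi, ctx_last _ hi, tmS_val hc ι ρ σ h t]
    · rw [if_neg hi, ctx_ne _ hi, ctT_val]

/-- `u ≥ v` -/
def geF (u v : Tm ar V) : QF ar V := .or (.eq u v) (.gt u v)

theorem geF_sat (u v : Tm ar V) (ρ : V → GT ar) :
    (geF u v).Sat prec mul ρ ↔ Ge prec mul (u.val ρ) (v.val ρ) := Iff.rfl

/-- conjunctions -/
def conj (hc : ar c = 0) (L : List (QF ar V)) : QF ar V :=
  L.foldr QF.and (.eq (ctT c hc) (ctT c hc))

theorem conj_sat (hc : ar c = 0) (L : List (QF ar V)) (ρ : V → GT ar) :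
    (conj hc L).Sat prec mul ρ ↔ ∀ φ ∈ L, φ.Sat prec mul ρ := by
  induction L with
  | nil => simp [conj, QF.Sat]
  | cons φ L ih =>
    change φ.Sat prec mul ρ ∧ (conj hc L).Sat prec mul ρ ↔ _
    rw [ih]
    simp

/-- the translation of constraints -/
def cnsF (hc : ar c = 0) {W : Type} (ι : V → W) : Cns (Lt ar prec f g) V → QF ar W
  | .ge x y => geF (tmS hc ι x) (tmS hc ι y)
  | .nge x y => .not (geF (tmS hc ι x) (tmS hc ι y))

theorem cnsF_sat (H : Ass ar prec mul f g c) {W : Type} (ι : V → W) (ρ : W → GT ar)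
    (σ : V → List (Lt ar prec f g)) (h : ∀ v, ρ (ι v) = emb H.hc (σ v))
    (d : Cns (Lt ar prec f g) V) :
    (cnsF H.hc ι d).Sat prec mul ρ ↔ d.Holds Lt.pr σ := by
  cases d with
  | ge x y =>
    change Ge prec mul _ _ ↔ _
    rw [tmS_val H.hc ι ρ σ h, tmS_val H.hc ι ρ σ h]
    exact ge_emb H _ _
  | nge x y =>
    change ¬ Ge prec mul _ _ ↔ ¬ _
    rw [tmS_val H.hc ι ρ σ h, tmS_val H.hc ι ρ σ h]
    exact not_congr (ge_emb H _ _)

/-- the term `f^n c` -/
def powT (hc : ar c = 0) (f : Fin N) : ℕ → Tm ar ℕ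
  | 0 => ctT c hc
  | n + 1 => .app f fun i => if i.val + 1 = ar f then powT hc f n else ctT c hc

theorem powT_val (hc : ar c = 0) (ρ : ℕ → GT ar) (n : ℕ) :
    (powT hc f n).val ρ = emb hc (nf (Lt.a ar prec f g) (Lt.b ar prec f g) (A n)) := by
  induction n with
  | zero => exact ctT_val hc ρ
  | succ n ih =>
    change GT.app f (fun i => Tm.val ρ (if i.val + 1 = ar f then powT hc f n else ctT c hc)) =
      GT.app f (ctx hc f (emb hc (nf (Lt.a ar prec f g) (Lt.b ar prec f g) (A n))))
    congr 1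
    funext i
    by_cases hi : i.val + 1 = ar f
    · rw [if_pos hi, ctx_last _ hi, ih]
    · rw [if_neg hi, ctx_ne _ hi, ctT_val]

theorem flatten_ctx {α : Type} (x y : List α) : ∀ n : ℕ, ∃ p : List α, ∀ z : List α,
    (List.ofFn fun i : Fin n => if i.val + 1 = n + 1 then z else x).flatten = p ∧
    (List.ofFn fun i : Fin (n + 1) => if i.val + 1 = n + 1 then z else x).flatten = p ++ z := by
  intro n
  refine ⟨(List.ofFn fun _ : Fin n => x).flatten, fun z => ?_⟩
  have h : (fun i : Fin n => if i.val + 1 = n + 1 then z else x) = fun _ => x := by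
    funext i
    have := i.2
    rw [if_neg (by omega)]
  refine ⟨by rw [h], ?_⟩
  rw [List.ofFn_succ', List.concat_eq_append, List.flatten_append]
  have h2 : (fun i : Fin n => if (i.castSucc : Fin (n + 1)).val + 1 = n + 1 then z else x) =
      fun _ => x := h
  rw [h2]
  simp

theorem powT_code (hc : ar c = 0) (hf : 0 < ar f) : ∃ p : List ℕ, ∀ n,
    (powT hc f n : Tm ar ℕ).code = (p ++ ·)^[n] (ctT c hc : Tm ar ℕ).code := by
  obtain ⟨k, hk⟩ : ∃ k, ar f = k + 1 := ⟨ar f - 1, by omega⟩
  obtain ⟨p, hp⟩ := flatten_ctx (ctT c hc : Tm ar ℕ).code [] k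
  refine ⟨(2 * f.val + 1) :: p, fun n => ?_⟩
  induction n with
  | zero => rfl
  | succ n ih =>
    rw [Function.iterate_succ_apply', ← ih]
    change (2 * f.val + 1) :: (List.ofFn fun i : Fin (ar f) =>
      (if i.val + 1 = ar f then powT hc f n else ctT c hc : Tm ar ℕ).code).flatten = _
    rw [List.cons_append]
    congr 1
    rw [← (hp (powT hc f n : Tm ar ℕ).code).2]
    congr 1
    have : (fun i : Fin (ar f) => (if i.val + 1 = ar f then powT hc f n else ctT c hc : Tm ar ℕ).code)
        = fun i : Fin (ar f) => if i.val + 1 = ar f then (powT hc f n : Tm ar ℕ).code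
          else (ctT c hc : Tm ar ℕ).code := by
      funext i
      split_ifs <;> rfl
    rw [this]
    generalize (powT hc f n : Tm ar ℕ).code = z
    generalize (ctT c hc : Tm ar ℕ).code = w
    rw [hk]

/-- the reduction for the normalised assumptions -/
theorem reduction (H : Ass ar prec mul f g c) {S : ℕ → Prop} (hS : REPred S) :
    ∃ φ : ℕ → QF ar ℕ, Computable (fun n => (φ n).code) ∧
      ∀ n, S n ↔ ExTrue prec mul (φ n) := by
  classical
  obtain ⟨V, _, v0, L, hL⟩ := word_main H.hyp hS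
  obtain ⟨ι, hι⟩ : ∃ ι : V → ℕ, Function.Injective ι := by
    have : Countable V := Finite.to_countable
    exact exists_injective_nat V
  have := Fintype.ofFinite V
  let FL : List (GT ar) := (forb_finite (f := f) (g := g) (prec := prec) H.hc).toFinset.toList
  have hFL : ∀ v, v ∈ FL ↔ v ∈ Forb H.hc prec f g := by
    intro v
    simp [FL]
  let dom : QF ar ℕ := conj H.hc ((Finset.univ : Finset V).toList.map fun v =>
    conj H.hc (FL.map fun u => .not (geF (.var (ι v)) (gt2t u))))
  have hdom : ∀ ρ : ℕ → GT ar, dom.Sat prec mul ρ ↔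
      ∀ v, ∃ l : List (Lt ar prec f g), ρ (ι v) = emb H.hc l := by
    intro ρ
    rw [conj_sat]
    simp only [List.mem_map, Finset.mem_toList, Finset.mem_univ, true_and, forall_exists_index,
      forall_apply_eq_imp_iff]
    refine forall_congr' fun v => ?_
    rw [conj_sat, ← emb_iff H]
    constructor
    · intro h u hu
      have := h _ (List.mem_map_of_mem ((hFL u).2 hu))
      change ¬ Ge prec mul (ρ (ι v)) ((gt2t u : Tm ar ℕ).val ρ) at this
      rwa [gt2t_val] at this
    · intro h φ hφ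
      obtain ⟨u, hu, rfl⟩ := List.mem_map.1 hφ
      change ¬ Ge prec mul (ρ (ι v)) ((gt2t u : Tm ar ℕ).val ρ)
      rw [gt2t_val]
      exact h u ((hFL u).1 hu)
  let Φ : QF ar ℕ := .and dom (conj H.hc (L.map (cnsF H.hc ι)))
  refine ⟨fun n => .and (.eq (.var (ι v0)) (powT H.hc f n)) Φ, ?_, fun n => ?_⟩
  · obtain ⟨p, hp⟩ := powT_code (f := f) H.hc H.pf
    have h1 : (fun n => (QF.and (.eq (.var (ι v0)) (powT H.hc f n)) Φ).code) = fun n =>
        3 :: (0 :: ([2 * ι v0] ++ (p ++ ·)^[n] (ctT c H.hc : Tm ar ℕ).code) ++ Φ.code) := by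
      funext n
      rw [← hp n]
      rfl
    rw [h1]
    refine Primrec.to_comp ?_
    refine Primrec.list_cons.comp (Primrec.const 3) ?_
    refine Primrec.list_append.comp ?_ (Primrec.const _)
    refine Primrec.list_cons.comp (Primrec.const 0) ?_
    exact Primrec.list_append.comp (Primrec.const _) (iter_prim _ _)
  · rw [hL n]
    constructor
    · rintro ⟨σ, hσ0, hσ⟩
      let ρ : ℕ → GT ar := fun m => if h : ∃ v, ι v = m then emb H.hc (σ h.choose) else ct c H.hc
      have hρ : ∀ v, ρ (ι v) = emb H.hc (σ v) := by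
        intro v
        have h : ∃ w, ι w = ι v := ⟨v, rfl⟩
        have h2 : h.choose = v := hι h.choose_spec
        simp only [ρ, dif_pos h, h2]
      refine ⟨ρ, ?_, ?_, ?_⟩
      · change ρ (ι v0) = (powT H.hc f n).val ρ
        rw [hρ, hσ0, powT_val (prec := prec) (g := g)]
      · exact (hdom ρ).2 fun v => ⟨σ v, hρ v⟩
      · rw [conj_sat]
        intro φ hφ
        obtain ⟨d, hd, rfl⟩ := List.mem_map.1 hφ
        exact (cnsF_sat H ι ρ σ hρ d).2 (hσ d hd)
    · rintro ⟨ρ, h0, h1, h2⟩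
      choose σ hσ using (hdom ρ).1 h1
      refine ⟨σ, ?_, fun d hd => ?_⟩
      · apply emb_inj H
        rw [← hσ v0]
        change ρ (ι v0) = (powT H.hc f n).val ρ at h0
        rw [h0, powT_val (prec := prec) (g := g)]
      · rw [conj_sat] at h2
        exact (cnsF_sat H ι ρ σ hσ d).1 (h2 _ (List.mem_map_of_mem hd))

/-- the assumptions of the theorem -/
structure Ass0 (ar : Fin N → ℕ) (prec : Fin N → Fin N → Prop) (mul : Fin N → Prop)
    (f g c : Fin N) : Prop where
  irr : ∀ s, ¬ prec s s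
  tr : ∀ s t u, prec s t → prec t u → prec s u
  ne : f ≠ g
  nfg : ¬ prec f g
  ngf : ¬ prec g f
  pf : 0 < ar f
  pg : 0 < ar g
  uf : ar f = 1 ∨ ¬ mul f
  ug : ar g = 1 ∨ ¬ mul g
  hc : ar c = 0
  cmin : ∀ s, ar s = 0 → ¬ prec c s
  low : ∀ s, prec f s ∨ prec g s → ar s = 1 ∨ s = c

/-- a minimal pair of incomparable symbols -/
theorem exists_ass (hc : ar c = 0) : ∀ (n : ℕ) (f g : Fin N), Ass0 ar prec mul f g c →
    {s | ar s = 1 ∧ (prec f s ∨ prec g s)}.ncard ≤ n →
    ∃ f g, Ass ar prec mul f g c := by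
  intro n
  induction n with
  | zero =>
    intro f g H h
    have h1 : {s | ar s = 1 ∧ (prec f s ∨ prec g s)} = ∅ :=
      (Set.ncard_eq_zero (Set.toFinite _)).1 (by omega)
    refine ⟨f, g, H.irr, H.tr, H.ne, H.nfg, H.ngf, H.pf, H.pg, H.uf, H.ug, H.hc, H.cmin, H.low,
      fun s hs => ?_⟩
    constructor
    · intro h2
      have : s ∈ {s | ar s = 1 ∧ (prec f s ∨ prec g s)} := ⟨hs, Or.inl h2⟩
      rw [h1] at this
      exact this.elim
    · intro h2
      have : s ∈ {s | ar s = 1 ∧ (prec f s ∨ prec g s)} := ⟨hs, Or.inr h2⟩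
      rw [h1] at this
      exact this.elim
  | succ n ih =>
    intro f g H h
    by_cases hb : ∀ s, ar s = 1 → (prec f s ↔ prec g s)
    · exact ⟨f, g, H.irr, H.tr, H.ne, H.nfg, H.ngf, H.pf, H.pg, H.uf, H.ug, H.hc, H.cmin, H.low,
        hb⟩
    · push Not at hb
      obtain ⟨s, hs, hb⟩ := hb
      have key : ∀ f g, Ass0 ar prec mul f g c →
          {s | ar s = 1 ∧ (prec f s ∨ prec g s)}.ncard ≤ n + 1 → prec f s → ¬ prec g s →
          ∃ f g, Ass ar prec mul f g c := by
        intro f g H h h1 h2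
        refine ih s g ?_ ?_
        · refine ⟨H.irr, H.tr, ?_, ?_, h2, by omega, H.pg, Or.inl hs, H.ug, H.hc, H.cmin, ?_⟩
          · rintro rfl
            exact H.nfg h1
          · intro h3
            exact H.nfg (H.tr _ _ _ h1 h3)
          · rintro t (ht | ht)
            · exact H.low t (Or.inl (H.tr _ _ _ h1 ht))
            · exact H.low t (Or.inr ht)
        · have hss : {t | ar t = 1 ∧ (prec s t ∨ prec g t)} ⊂
              {t | ar t = 1 ∧ (prec f t ∨ prec g t)} := by
            refine ⟨?_, fun h3 => ?_⟩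
            · rintro t ⟨ht, ht' | ht'⟩
              · exact ⟨ht, Or.inl (H.tr _ _ _ h1 ht')⟩
              · exact ⟨ht, Or.inr ht'⟩
            · have : s ∈ {t | ar t = 1 ∧ (prec s t ∨ prec g t)} := h3 ⟨hs, Or.inl h1⟩
              rcases this.2 with h4 | h4
              · exact H.irr _ h4
              · exact h2 h4
          have := Set.ncard_lt_ncard hss (Set.toFinite _)
          omega
      rcases hb with ⟨h1, h2⟩ | ⟨h1, h2⟩
      · exact key f g H h h1 h2
      · refine key g f ⟨H.irr, H.tr, H.ne.symm, H.ngf, H.nfg, H.pg, H.pf, H.ug, H.uf, H.hc, H.cmin,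
          fun t ht => H.low t ht.symm⟩ ?_ h2 h1
        have : {s | ar s = 1 ∧ (prec g s ∨ prec f s)} = {s | ar s = 1 ∧ (prec f s ∨ prec g s)} := by
          ext t
          simp only [Set.mem_setOf_eq]
          rw [or_comm]
        rwa [this]

theorem reduction0 (H : Ass0 ar prec mul f g c) {S : ℕ → Prop} (hS : REPred S) :
    ∃ φ : ℕ → QF ar ℕ, Computable (fun n => (φ n).code) ∧
      ∀ n, S n ↔ ExTrue prec mul (φ n) := by
  obtain ⟨f, g, H'⟩ := exists_ass H.hc _ f g H le_rfl
  exact reduction H' hS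

end

end Pool.Agent.U34.RPO
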