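import Pool.Agent.U34.RPO.Core

set_option autoImplicit false

/-! Addition and multiplication of natural numbers, defined in the path ordering on words. -/

namespace Pool.Agent.U34.RPO

section Defs

variable {Λ : Type} (P : Λ → Λ → Prop) (a b : Λ)

def IsA (z : List Λ) : Prop := ¬ WGe P z [b]

def IsB (z : List Λ) : Prop := ¬ WGe P z [a]

def IsY (z : List Λ) : Prop := WGe P z [a] ∧ ¬ WGe P z [a, a] ∧ ¬ WGe P z [a, b]

def IsW0 (z : List Λ) : Prop := WGe P z [a, a] ∧ ¬ WGe P z [a, a, a] ∧ ¬ WGe P z [a, b]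

/-- `c = true` if there is a third letter -/
def IsW (c : Bool) (z : List Λ) : Prop := cond c (IsY P a b z) (IsW0 P a b z)

def IsR (z : List Λ) : Prop := WGe P z [b] ∧ ¬ WGe P z [b, a] ∧ ¬ WGe P z [b, b]

def IsL (z : List Λ) : Prop := WGe P z [b, a] ∧ ¬ WGe P z [b, b] ∧ ¬ WGe P z [b, a, a]

def IsX (z : List Λ) : Prop := WGe P z [b, b] ∧ ¬ WGe P z [b, b, a] ∧ ¬ WGe P z [b, b, b]

def IsP (z : List Λ) : Prop := WGe P z [b, a] ∧ ¬ WGe P z [b, a, b] ∧ ¬ WGe P z [b, a, a]

def IsQ (z : List Λ) : Prop := WGe P z [a, b] ∧ ¬ WGe P z [a, a] ∧ ¬ WGe P z [a, b, b]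

def IsS (z : List Λ) : Prop := WGe P z [a, b, a] ∧ ¬ WGe P z [a, b, b] ∧ ¬ WGe P z [a, b, a, a]

/-- addition of `a`-numbers -/
def Add (A1 A2 A3 : List Λ) : Prop :=
  IsA P b A1 ∧ IsA P b A2 ∧ IsA P b A3 ∧ ∃ x R L, IsX P a b x ∧ IsR P a b R ∧ IsL P a b L ∧
    WGe P x (b :: a :: A2) ∧ ¬ WGe P x (b :: a :: a :: A2) ∧
    WGe P x (a :: A3) ∧ ¬ WGe P x (a :: a :: A3) ∧
    WGe P R A1 ∧ ¬ WGe P R (a :: A1) ∧ WGe P L R ∧ ¬ WGe P L (a :: R) ∧
    WGe P x L ∧ ¬ WGe P x (a :: L)

/-- `x` is `u b a` (up to noise), where `u` has the counts given by `M = b^m` and `R = a^k b` -/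
def Gen (c : Bool) (x M R : List Λ) : Prop :=
  ∃ y w, IsY P a b y ∧ WGe P y (b :: M) ∧ ¬ WGe P y (b :: b :: M) ∧
    IsW P a b c w ∧ WGe P w (b :: M) ∧ ¬ WGe P w (b :: b :: M) ∧
    WGe P x y ∧ ¬ WGe P x w ∧ ¬ WGe P x (b :: b :: M) ∧ WGe P x R ∧ ¬ WGe P x (a :: R)

/-- `R = a^k b`, `K = a^k` -/
def Lnk (R K : List Λ) : Prop := IsR P a b R ∧ WGe P R K ∧ ¬ WGe P R (a :: K)

/-- `K = a^(n m)`, where `An = a^n`, `M = b^m` -/
def Core (c : Bool) (An M K : List Λ) : Prop :=
  IsA P b An ∧ IsB P a M ∧ IsA P b K ∧ ∃ Kn Rn Rk Rkn Xu Xy Xz Pw Y0 Q S P2,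
    Add P a b K An Kn ∧ Lnk P a b Rn An ∧ Lnk P a b Rk K ∧ Lnk P a b Rkn Kn ∧
    Gen P a b c Xu M Rk ∧ Gen P a b c Xy M Rkn ∧ Gen P a b c Xz (b :: M) Rkn ∧
    WGe P Xz (b :: Xu) ∧
    IsP P a b Pw ∧ WGe P Pw Rn ∧ WGe P Pw (b :: b :: M) ∧ WGe P Xz Pw ∧
    IsY P a b Y0 ∧ WGe P Y0 M ∧ ¬ WGe P Y0 (b :: M) ∧
    IsQ P a b Q ∧ WGe P Q Y0 ∧ ¬ WGe P Q (b :: Y0) ∧ ¬ WGe P Xu Q ∧
    IsS P a b S ∧ WGe P S Q ∧ WGe P S Rn ∧ WGe P Xy S ∧
    WGe P Xy Xu ∧ WGe P Xz Xy ∧
    IsP P a b P2 ∧ WGe P P2 Rkn ∧ WGe P P2 [b, b, a] ∧ WGe P Xz P2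

/-- multiplication of `a`-numbers -/
def Mul (c : Bool) (N1 N2 N3 : List Λ) : Prop :=
  IsA P b N1 ∧ ∃ M K, Core P a b c [a] M N2 ∧ Core P a b c (a :: N1) M K ∧ Add P a b N3 N2 K

end Defs

section Sound

variable {Λ : Type} {P : Λ → Λ → Prop} {a b : Λ}

theorem pos (H : Hyp P a b) {x y : List Λ} (h : WGe P x y) : (sk a b y).Sublist (sk a b x) := h.sk H

theorem cst (H : Hyp P a b) (x : List Λ) (t : List Bool) :
    WGe P x (nf a b t) ↔ t.Sublist (sk a b x) := wge_nf H x t

theorem IsA.sk (H : Hyp P a b) {z : List Λ} (h : IsA P b z) : ∃ n, RPO.sk a b z = A n :=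
  sA fun h1 => h ((cst H z [false]).2 h1)

theorem IsB.sk (H : Hyp P a b) {z : List Λ} (h : IsB P a z) : ∃ n, RPO.sk a b z = B n :=
  sB fun h1 => h ((cst H z [true]).2 h1)

theorem IsY.sk (H : Hyp P a b) {z : List Λ} (h : IsY P a b z) :
    ∃ n, RPO.sk a b z = B n ++ [true] :=
  sY ((cst H z [true]).1 h.1) (fun h1 => h.2.1 ((cst H z [true, true]).2 h1))
    (fun h1 => h.2.2 ((cst H z [true, false]).2 h1))

theorem IsW0.sk (H : Hyp P a b) {z : List Λ} (h : IsW0 P a b z) :
    ∃ n, RPO.sk a b z = B n ++ [true, true] :=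
  sW ((cst H z [true, true]).1 h.1) (fun h1 => h.2.1 ((cst H z [true, true, true]).2 h1))
    (fun h1 => h.2.2 ((cst H z [true, false]).2 h1))

theorem IsR.sk (H : Hyp P a b) {z : List Λ} (h : IsR P a b z) :
    ∃ n, RPO.sk a b z = A n ++ [false] :=
  sR ((cst H z [false]).1 h.1) (fun h1 => h.2.1 ((cst H z [false, true]).2 h1))
    (fun h1 => h.2.2 ((cst H z [false, false]).2 h1))

theorem IsL.sk (H : Hyp P a b) {z : List Λ} (h : IsL P a b z) :
    ∃ n, RPO.sk a b z = A n ++ [false, true] :=
  sL ((cst H z [false, true]).1 h.1) (fun h1 => h.2.1 ((cst H z [false, false]).2 h1))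
    (fun h1 => h.2.2 ((cst H z [false, true, true]).2 h1))

theorem IsX.sk (H : Hyp P a b) {z : List Λ} (h : IsX P a b z) :
    ∃ p q, RPO.sk a b z = A p ++ false :: (A q ++ [false]) :=
  sX ((cst H z [false, false]).1 h.1) (fun h1 => h.2.1 ((cst H z [false, false, true]).2 h1))
    (fun h1 => h.2.2 ((cst H z [false, false, false]).2 h1))

theorem IsP.sk (H : Hyp P a b) {z : List Λ} (h : IsP P a b z) :
    ∃ p q, 1 ≤ q ∧ RPO.sk a b z = A p ++ (B q ++ [true]) :=
  sP ((cst H z [false, true]).1 h.1) (fun h1 => h.2.1 ((cst H z [false, true, false]).2 h1))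
    (fun h1 => h.2.2 ((cst H z [false, true, true]).2 h1))

theorem IsQ.sk (H : Hyp P a b) {z : List Λ} (h : IsQ P a b z) :
    ∃ n, RPO.sk a b z = B n ++ [true, false] :=
  sQ ((cst H z [true, false]).1 h.1) (fun h1 => h.2.1 ((cst H z [true, true]).2 h1))
    (fun h1 => h.2.2 ((cst H z [true, false, false]).2 h1))

theorem IsS.sk (H : Hyp P a b) {z : List Λ} (h : IsS P a b z) :
    ∃ p q, 1 ≤ q ∧ RPO.sk a b z = B p ++ (A q ++ [false, true]) :=
  sS ((cst H z [true, false, true]).1 h.1)
    (fun h1 => h.2.1 ((cst H z [true, false, false]).2 h1))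
    (fun h1 => h.2.2 ((cst H z [true, false, true, true]).2 h1))

/-- auxiliary: `a^p b a^q` as a subword of `a^p' b a^q' b` -/
theorem ab_le {p q p' q' : ℕ} (hq : 1 ≤ q)
    (h : (A p ++ false :: A q).Sublist (A p' ++ false :: (A q' ++ [false]))) : p ≤ p' := by
  induction p' generalizing p with
  | zero =>
    cases p with
    | zero => exact le_rfl
    | succ p =>
      exfalso
      rw [A_succ, List.cons_append] at h
      change (true :: (A p ++ false :: A q)).Sublist (false :: (A q' ++ [false])) at h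
      rw [tf] at h
      obtain ⟨q, rfl⟩ : ∃ j, q = j + 1 := ⟨q - 1, by omega⟩
      rw [A_succ' q, ← List.cons_append, ← List.cons_append, ← List.append_assoc,
        snoc_ne (by decide)] at h
      have := h.count_le false
      rw [cb_A] at this
      simp at this
  | succ p' ih =>
    cases p with
    | zero => exact Nat.zero_le _
    | succ p =>
      rw [A_succ, A_succ, List.cons_append, List.cons_append, List.cons_sublist_cons] at h
      exact Nat.succ_le_succ (ih h)

theorem Lnk.sk (H : Hyp P a b) {R K : List Λ} (h : Lnk P a b R K) {k : ℕ}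
    (hK : RPO.sk a b K = A k) : RPO.sk a b R = A k ++ [false] := by
  obtain ⟨h1, h2, h3⟩ := h
  obtain ⟨n, hn⟩ := h1.sk H
  have h4 := pos H h2
  rw [hn, hK] at h4
  have h5 := neg_sk H h3 false
  rw [hn, sk_cons_a, hK] at h5
  have e1 := h4.count_le true
  rw [cntT, ca_A] at e1
  simp at e1
  have e2 : ¬ k + 1 ≤ n := fun h => h5 (by
    have := (A_le h).append (List.Sublist.refl [false])
    exact this)
  have : n = k := by omega
  rw [hn, this]

theorem Add.sk (H : Hyp P a b) {A1 A2 A3 : List Λ} (h : Add P a b A1 A2 A3) :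
    ∃ i j, RPO.sk a b A1 = A i ∧ RPO.sk a b A2 = A j ∧ RPO.sk a b A3 = A (i + j) := by
  obtain ⟨hA1, hA2, hA3, x, R, L, hx, hR, hL, h1, h2, h3, h4, h5, h6, h7, h8, h9, h10⟩ := h
  obtain ⟨i, hi⟩ := hA1.sk H
  obtain ⟨j, hj⟩ := hA2.sk H
  obtain ⟨k, hk⟩ := hA3.sk H
  obtain ⟨p, q, hx⟩ := hx.sk H
  obtain ⟨l, hl⟩ := hL.sk H
  have hR' : RPO.sk a b R = A i ++ [false] := Lnk.sk H ⟨hR, h5, h6⟩ hi
  refine ⟨i, j, hi, hj, ?_⟩
  have g1 := pos H h1
  rw [hx, sk_cons_b H.ne, sk_cons_a, hj, f_sub] at g1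
  have g2 := neg_sk H h2 false
  rw [hx, sk_cons_b H.ne, sk_cons_a, sk_cons_a, hj, List.cons_append, f_sub] at g2
  have g3 := pos H h3
  rw [hx, sk_cons_a, hk] at g3
  have g4 := neg_sk H h4 false
  rw [hx, sk_cons_a, sk_cons_a, hk] at g4
  have g7 := pos H h7
  rw [hl, hR'] at g7
  have g8 := neg_sk H h8 true
  rw [hl, sk_cons_a, hR'] at g8
  have g9 := pos H h9
  rw [hl, hx] at g9
  have g10 := neg_sk H h10 false
  rw [hx, sk_cons_a, hl] at g10
  -- q = j + 1
  have e1 : j + 1 ≤ q := by
    have := (A_sub (n := j + 1)).1 g1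
    rw [cntT] at this
    simpa using this
  have e2 : ¬ j + 2 ≤ q := fun h => g2 ((A_le h).append (List.Sublist.refl [false]))
  -- p + q = k + 1
  have e3 : k + 1 ≤ p + q := by
    have := (A_sub (n := k + 1)).1 g3
    rw [cntT, cntT] at this
    simpa using this
  have e4 : ¬ k + 2 ≤ p + q := fun h => g4 (by
    have h1 : (A (k + 2)).Sublist (A p ++ false :: A q) := by
      rw [A_sub, cntT, ca_A]
      exact h
    have := h1.append (List.Sublist.refl [false])
    simpa [A_succ] using this)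
  -- l = i
  have e5 : i ≤ l := by
    have := (A_sub (n := i)).1 (((List.sublist_append_left (A i) [false]).trans g7))
    have h2 : (A i ++ [false]).Sublist (A l ++ [false]) := by
      have : (A i ++ [false]).Sublist ((A l ++ [false]) ++ [true]) := by simpa using g7
      exact (snoc_ne (by decide)).1 this
    have h3 := h2.count_le true
    rw [cntT, cntT] at h3
    simpa using h3
  have e6 : ¬ i + 1 ≤ l := fun h => g8 (by
    have := (A_le h).append (List.Sublist.refl [false, true])
    simpa [A_succ] using this)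
  have e7 : l = i := by omega
  subst e7
  -- p = i
  have e8 : l ≤ p := ab_le (q := 1) le_rfl g9
  have e9 : ¬ l + 1 ≤ p := fun h => g10 (by
    have h1 : (A 1).Sublist (A q) := A_le (by omega)
    have := (A_le h).append ((h1.append (List.Sublist.refl [false])).cons_cons false)
    simpa [A_succ] using this)
  have : k = l + j := by omega
  rw [hk, this]

/-- the certificate: the skeleton is `u b a` -/
theorem cert {σ : List Bool} {m : ℕ} (h1 : (B (m + 1) ++ [true]).Sublist σ)
    (h2 : ¬ (B (m + 1) ++ [true, true]).Sublist σ) (h3 : ¬ (B (m + 1) ++ [true, false]).Sublist σ)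
    (h4 : ¬ (B (m + 2) ++ [true]).Sublist σ) :
    ∃ u, σ = u ++ [false, true] ∧ u.count false = m := by
  induction σ generalizing m with
  | nil => simp at h1
  | cons s σ ih =>
    cases s
    · rw [B_succ, List.cons_append, List.cons_sublist_cons] at h1 h2 h3 h4
      cases m with
      | zero =>
        simp only [List.replicate_zero, List.nil_append] at h1 h2 h3
        obtain ⟨k, hk⟩ := sY h1 h2 h3
        cases k with
        | zero => exact ⟨[], by rw [hk]; rfl, rfl⟩
        | succ k =>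
          exfalso
          apply h4
          rw [hk]
          exact (B_le (by omega)).append (List.Sublist.refl _)
      | succ m =>
        obtain ⟨u, hu, hc⟩ := ih h1 h2 h3 h4
        exact ⟨false :: u, by rw [hu]; rfl, by simp [hc]⟩
    · rw [B_succ, List.cons_append, ft] at h1 h2 h3 h4
      obtain ⟨u, hu, hc⟩ := ih h1 h2 h3 h4
      exact ⟨true :: u, by rw [hu]; rfl, by simp [hc]⟩

theorem nf_sk (h : ∀ s : Λ, s = a ∨ s = b) (hne : a ≠ b) (x : List Λ) : nf a b (sk a b x) = x := by
  induction x with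
  | nil => rfl
  | cons s x ih =>
    rcases h s with rfl | rfl
    · simp [ih]
    · simp [sk_cons_b hne, ih]

theorem Bt {j m : ℕ} : (B m).Sublist (B j ++ [true]) ↔ m ≤ j := by
  rw [B_sub, List.count_append, cb_B]; simp

theorem Btt {j m : ℕ} : (B m).Sublist (B j ++ [true, true]) ↔ m ≤ j := by
  rw [B_sub, List.count_append, cb_B]; simp

/-- there is a third letter, or not -/
def Third (a b : Λ) (c : Bool) : Prop :=
  cond c (∃ h, h ≠ a ∧ h ≠ b) (∀ s, s = a ∨ s = b)

theorem Gen.sk (H : Hyp P a b) {c : Bool} (hc : Third a b c) {x M R : List Λ}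
    (h : Gen P a b c x M R) {m k : ℕ} (hM : RPO.sk a b M = B m)
    (hR : RPO.sk a b R = A k ++ [false]) :
    ∃ u, RPO.sk a b x = u ++ [false, true] ∧ u.count false = m ∧ u.count true = k := by
  obtain ⟨y, w, hy, hy1, hy2, hw, hw1, hw2, h1, h2, h3, h4, h5⟩ := h
  -- y
  obtain ⟨j, hj⟩ := hy.sk H
  have hyj : j = m + 1 := by
    have g1 := pos H hy1
    rw [hj, sk_cons_b H.ne, hM] at g1
    have e1 : m + 1 ≤ j := Bt.1 g1
    have g2 := neg_sk H hy2 true
    rw [hj, sk_cons_b H.ne, sk_cons_b H.ne, hM] at g2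
    have e2 : ¬ m + 2 ≤ j := fun h => g2 ((B_le h).append (List.Sublist.refl [true]))
    omega
  subst hyj
  have f1 : (B (m + 1) ++ [true]).Sublist (RPO.sk a b x) := by
    have := pos H h1
    rwa [hj] at this
  have f45 : ∀ s, ¬ (B (m + 2) ++ [s]).Sublist (RPO.sk a b x) := by
    intro s
    have := neg_sk H h3 s
    rwa [sk_cons_b H.ne, sk_cons_b H.ne, hM] at this
  have f23 : ∀ s, ¬ (B (m + 1) ++ [true, s]).Sublist (RPO.sk a b x) := by
    cases c
    · change IsW0 P a b w at hw
      change ∀ s, s = a ∨ s = b at hc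
      obtain ⟨j, hj⟩ := hw.sk H
      have hyj : j = m + 1 := by
        have g1 := pos H hw1
        rw [hj, sk_cons_b H.ne, hM] at g1
        have e1 : m + 1 ≤ j := Btt.1 g1
        have g2 := neg_sk H hw2 true
        rw [hj, sk_cons_b H.ne, sk_cons_b H.ne, hM] at g2
        have e2 : ¬ m + 2 ≤ j := fun h => g2 ((B_le h).append (by simp))
        omega
      subst hyj
      have g1 : ¬ (B (m + 1) ++ [true, true]).Sublist (RPO.sk a b x) := by
        rw [← hj, ← cst H, nf_sk hc H.ne]
        exact h2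
      have g2 : ¬ (B (m + 2)).Sublist (RPO.sk a b x) := by
        have : B (m + 2) = RPO.sk a b (b :: b :: M) := by
          rw [sk_cons_b H.ne, sk_cons_b H.ne, hM]; rfl
        rw [this, ← cst H, nf_sk hc H.ne]
        exact h3
      intro s
      cases s
      · intro h
        apply g2
        refine List.Sublist.trans ?_ h
        rw [B_sub, List.count_append, cb_B]
        simp
      · exact g1
    · change IsY P a b w at hw
      obtain ⟨j, hj⟩ := hw.sk H
      have hyj : j = m + 1 := by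
        have g1 := pos H hw1
        rw [hj, sk_cons_b H.ne, hM] at g1
        have e1 : m + 1 ≤ j := Bt.1 g1
        have g2 := neg_sk H hw2 true
        rw [hj, sk_cons_b H.ne, sk_cons_b H.ne, hM] at g2
        have e2 : ¬ m + 2 ≤ j := fun h => g2 ((B_le h).append (List.Sublist.refl [true]))
        omega
      subst hyj
      intro s
      have := neg_sk H h2 s
      rw [hj] at this
      simpa using this
  obtain ⟨u, hu, hcu⟩ := cert f1 (f23 true) (f23 false) (f45 true)
  refine ⟨u, hu, hcu, ?_⟩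
  have g4 := pos H h4
  rw [hu, hR] at g4
  have g5 := neg_sk H h5 true
  rw [hu, sk_cons_a, hR] at g5
  have e1 : k ≤ u.count true := by
    have h6 : (A k ++ [false]).Sublist ((u ++ [false]) ++ [true]) := by simpa using g4
    rw [snoc_ne (by decide), snoc_same, A_sub] at h6
    exact h6
  have e2 : ¬ k + 1 ≤ u.count true := fun h => g5 (by
    have := ((A_sub (n := k + 1)).2 h).append (List.Sublist.refl [false, true])
    simpa [A_succ] using this)
  omega

theorem Core.sk (H : Hyp P a b) {c : Bool} (hc : Third a b c) {An M K : List Λ}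
    (h : Core P a b c An M K) {n : ℕ} (hn : RPO.sk a b An = A n) (h1n : 1 ≤ n) :
    ∃ m, RPO.sk a b M = B m ∧ RPO.sk a b K = A (n * m) := by
  obtain ⟨-, hM, hK, Kn, Rn, Rk, Rkn, Xu, Xy, Xz, Pw, Y0, Q, S, P2, hadd, hRn, hRk, hRkn, hu, hy, hz,
    c1, c2, c3, c4, c5, c6, c7, c8, c9, c10, c11, c12, c13, c14, c15, c16, c17, c18, c19, c20, c21,
    c22⟩ := h
  obtain ⟨m, hm⟩ := hM.sk H
  obtain ⟨k, n', hk, hn', hkn⟩ := hadd.sk H
  have : n' = n := by
    rw [hn] at hn'
    have := congrArg List.length hn'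
    simpa using this.symm
  subst this
  have hRn := hRn.sk H hn
  have hRk := hRk.sk H hk
  have hRkn := hRkn.sk H hkn
  obtain ⟨u, hu, hu1, hu2⟩ := hu.sk H hc hm hRk
  obtain ⟨y, hy, hy1, hy2⟩ := hy.sk H hc hm hRkn
  have hbM : RPO.sk a b (b :: M) = B (m + 1) := by rw [sk_cons_b H.ne, hm]; rfl
  have hbbM : RPO.sk a b (b :: b :: M) = B (m + 2) := by rw [sk_cons_b H.ne, hbM]; rfl
  obtain ⟨z, hz, hz1, hz2⟩ := hz.sk H hc hbM hRkn
  refine ⟨m, hm, ?_⟩
  have strip : ∀ v w : List Bool, (v ++ [false, true]).Sublist (w ++ [false, true]) →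
      v.Sublist w := fun v w h => (List.append_sublist_append_right _).1 h
  -- h1
  have d1 : (false :: u).Sublist z := by
    have := pos H c1
    rw [hz, sk_cons_b H.ne, hu, ← List.cons_append] at this
    exact strip _ _ this
  -- h2
  have d2 : (A n' ++ B (m + 1)).Sublist z := by
    obtain ⟨p, q, hq, hp⟩ := c2.sk H
    have g1 := pos H c3
    rw [hp, hRn] at g1
    have g2 := pos H c4
    rw [hp, hbbM] at g2
    have g3 := pos H c5
    rw [hp, hz] at g3
    have e1 : n' ≤ p := by
      have h1 : (A n' ++ [false]).Sublist (A p ++ B q) := by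
        rw [← List.append_assoc, snoc_ne (by decide)] at g1
        exact g1
      have h2 := h1.count_le true
      rw [cntT, List.count_append, ca_A, ca_B] at h2
      simpa using h2
    have e2 : m + 2 ≤ q := by
      have := B_sub.1 g2
      rw [List.count_append, cb_A, List.count_append, cb_B] at this
      simpa using this
    have h3 : (A n' ++ (B (m + 1) ++ [false, true])).Sublist (z ++ [false, true]) := by
      refine List.Sublist.trans ?_ g3
      have h4 : (A n' ++ (B (m + 2) ++ [true])).Sublist (A p ++ (B q ++ [true])) :=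
        (A_le e1).append ((B_le e2).append (List.Sublist.refl _))
      rw [B_succ'] at h4
      simpa using h4
    rw [← List.append_assoc] at h3
    exact strip _ _ h3
  -- h3, h4
  obtain ⟨j, hj⟩ := c6.sk H
  have hjm : j = m := by
    have g1 := pos H c7
    rw [hj, hm] at g1
    have e1 : m ≤ j := Bt.1 g1
    have g2 := neg_sk H c8 true
    rw [hj, hbM] at g2
    have e2 : ¬ m + 1 ≤ j := fun h => g2 ((B_le h).append (List.Sublist.refl [true]))
    omega
  subst hjm
  obtain ⟨l, hl⟩ := c9.sk H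
  have hlj : l = j := by
    have g1 := pos H c10
    rw [hj, hl] at g1
    have e1 : j ≤ l := by
      have : (B j ++ [true]).Sublist ((B l ++ [true]) ++ [false]) := by simpa using g1
      rw [snoc_ne (by decide), snoc_same, B_sub, cb_B] at this
      exact this
    have g2 := neg_sk H c11 false
    rw [hl, sk_cons_b H.ne, hj] at g2
    have e2 : ¬ j + 1 ≤ l := fun h => g2 (by
      have := (B_le h).append (List.Sublist.refl [true, false])
      simpa [B_succ] using this)
    omega
  subst hlj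
  have d3 : ¬ (B l ++ [true]).Sublist u := by
    have := neg_sk H c12 true
    rw [hu, hl] at this
    intro h
    apply this
    have := h.append (List.Sublist.refl [false, true])
    simpa using this
  have d4 : (B l ++ A n').Sublist y := by
    obtain ⟨p, q, hq, hp⟩ := c13.sk H
    have g1 := pos H c14
    rw [hp, hl] at g1
    have g2 := pos H c15
    rw [hp, hRn] at g2
    have g3 := pos H c16
    rw [hp, hy] at g3
    have e1 : l ≤ p := by
      have h1 : ((B l ++ [true]) ++ [false]).Sublist (((B p ++ A q) ++ [false]) ++ [true]) := by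
        simpa using g1
      rw [snoc_ne (by decide), snoc_same] at h1
      have h2 := h1.count_le false
      rw [List.count_append, cb_B, List.count_append, cb_B, cb_A] at h2
      simpa using h2
    have e2 : n' ≤ q := by
      have h1 : (A n' ++ [false]).Sublist (((B p ++ A q) ++ [false]) ++ [true]) := by
        simpa using g2
      rw [snoc_ne (by decide), snoc_same] at h1
      have h2 := h1.count_le true
      rw [ca_A, List.count_append, ca_B, ca_A] at h2
      simpa using h2
    have h3 : ((B l ++ A n') ++ [false, true]).Sublist (y ++ [false, true]) := by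
      refine List.Sublist.trans ?_ g3
      rw [← List.append_assoc]
      exact ((B_le e1).append (A_le e2)).append (List.Sublist.refl _)
    exact strip _ _ h3
  have d5 : u.Sublist y := by
    have := pos H c17
    rw [hu, hy] at this
    exact strip _ _ this
  have d6 : y.Sublist z := by
    have := pos H c18
    rw [hy, hz] at this
    exact strip _ _ this
  have d7 : (A (k + n') ++ [false]).Sublist z := by
    obtain ⟨p, q, hq, hp⟩ := c19.sk H
    have g1 := pos H c20
    rw [hp, hRkn] at g1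
    have g2 := (cst H P2 [false, false, true]).1 c21
    rw [hp] at g2
    have g3 := pos H c22
    rw [hp, hz] at g3
    have e1 : k + n' ≤ p := by
      have h1 : (A (k + n') ++ [false]).Sublist (A p ++ B q) := by
        rw [← List.append_assoc, snoc_ne (by decide)] at g1
        exact g1
      have h2 := h1.count_le true
      rw [cntT, List.count_append, ca_A, ca_B] at h2
      simpa using h2
    have e2 : 2 ≤ q := by
      have := g2.count_le false
      rw [List.count_append, cb_A, List.count_append, cb_B] at this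
      simpa using this
    have h3 : ((A (k + n') ++ [false]) ++ [false, true]).Sublist (z ++ [false, true]) := by
      refine List.Sublist.trans ?_ g3
      have h4 : (A (k + n') ++ (B 2 ++ [true])).Sublist (A p ++ (B q ++ [true])) :=
        (A_le e1).append ((B_le e2).append (List.Sublist.refl _))
      have h5 : (A (k + n') ++ [false, false, true]).Sublist (A p ++ (B q ++ [true])) := h4
      simpa using h5
    exact strip _ _ h3
  have e := core_sound h1n hu1 hu2 hy1 hy2 hz1 hz2 d1 d2 d3 d4 d5 d6 d7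
  rw [hk, e]

theorem Mul.sk (H : Hyp P a b) {c : Bool} (hc : Third a b c) {N1 N2 N3 : List Λ}
    (h : Mul P a b c N1 N2 N3) :
    ∃ i j, RPO.sk a b N1 = A i ∧ RPO.sk a b N2 = A j ∧ RPO.sk a b N3 = A (i * j) := by
  obtain ⟨h1, M, K, h2, h3, h4⟩ := h
  obtain ⟨i, hi⟩ := h1.sk H
  obtain ⟨m, hm, hN2⟩ := h2.sk H hc (n := 1) (by simp) le_rfl
  obtain ⟨m', hm', hK⟩ := h3.sk H hc (n := i + 1) (by rw [sk_cons_a, hi]; rfl) (by omega)
  have : m' = m := by
    rw [hm] at hm'
    have := congrArg List.length hm'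
    simpa using this.symm
  subst this
  obtain ⟨p, q, hp, hq, hpq⟩ := h4.sk H
  have e1 : q = m' := by
    rw [hN2] at hq
    have := congrArg List.length hq
    simpa using this.symm
  subst e1
  have e2 : p + q = (i + 1) * q := by
    rw [hK] at hpq
    have := congrArg List.length hpq
    simpa using this.symm
  have e3 : p = i * q := by
    have : (i + 1) * q = i * q + q := by ring
    omega
  refine ⟨i, q, hi, hq, ?_⟩
  rw [hp, e3]

end Sound

end Pool.Agent.U34.RPO
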