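import Pool.Agent.U34.RPO.Word

set_option autoImplicit false

/-! Subwords of words of simple shapes over two letters. -/

namespace Pool.Agent.U34.RPO

/-- powers of the letter `true` -/
abbrev A (n : ℕ) : List Bool := List.replicate n true

/-- powers of the letter `false` -/
abbrev B (n : ℕ) : List Bool := List.replicate n false

theorem A_succ (n : ℕ) : A (n + 1) = true :: A n := rfl

theorem B_succ (n : ℕ) : B (n + 1) = false :: B n := rfl

theorem A_succ' (n : ℕ) : A (n + 1) = A n ++ [true] := List.replicate_succ'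

theorem B_succ' (n : ℕ) : B (n + 1) = B n ++ [false] := List.replicate_succ'

theorem tf {x y : List Bool} : (true :: x).Sublist (false :: y) ↔ (true :: x).Sublist y :=
  cons_sub (by decide)

theorem ft {x y : List Bool} : (false :: x).Sublist (true :: y) ↔ (false :: x).Sublist y :=
  cons_sub (by decide)

theorem sA {σ : List Bool} (h : ¬ [false].Sublist σ) : ∃ n, σ = A n := by
  induction σ with
  | nil => exact ⟨0, rfl⟩
  | cons s σ ih =>
    cases s
    · simp at h
    · rw [ft] at h
      obtain ⟨n, rfl⟩ := ih h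
      exact ⟨n + 1, rfl⟩

theorem sB {σ : List Bool} (h : ¬ [true].Sublist σ) : ∃ n, σ = B n := by
  induction σ with
  | nil => exact ⟨0, rfl⟩
  | cons s σ ih =>
    cases s
    · rw [tf] at h
      obtain ⟨n, rfl⟩ := ih h
      exact ⟨n + 1, rfl⟩
    · simp at h

theorem nil_of {σ : List Bool} (h1 : ¬ [false].Sublist σ) (h2 : ¬ [true].Sublist σ) : σ = [] := by
  cases σ with
  | nil => rfl
  | cons s σ => cases s <;> simp at h1 h2

/-- `a^k b` -/
theorem sR {σ : List Bool} (h1 : [false].Sublist σ) (h2 : ¬ [false, true].Sublist σ)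
    (h3 : ¬ [false, false].Sublist σ) : ∃ k, σ = A k ++ [false] := by
  induction σ with
  | nil => simp at h1
  | cons s σ ih =>
    cases s
    · rw [List.cons_sublist_cons] at h2 h3
      rw [nil_of h3 h2]
      exact ⟨0, rfl⟩
    · rw [ft] at h1 h2 h3
      obtain ⟨n, rfl⟩ := ih h1 h2 h3
      exact ⟨n + 1, rfl⟩

/-- `b^j a` -/
theorem sY {σ : List Bool} (h1 : [true].Sublist σ) (h2 : ¬ [true, true].Sublist σ)
    (h3 : ¬ [true, false].Sublist σ) : ∃ k, σ = B k ++ [true] := by
  induction σ with
  | nil => simp at h1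
  | cons s σ ih =>
    cases s
    · rw [tf] at h1 h2 h3
      obtain ⟨n, rfl⟩ := ih h1 h2 h3
      exact ⟨n + 1, rfl⟩
    · rw [List.cons_sublist_cons] at h2 h3
      rw [nil_of h3 h2]
      exact ⟨0, rfl⟩

/-- `b^j a a` -/
theorem sW {σ : List Bool} (h1 : [true, true].Sublist σ) (h2 : ¬ [true, true, true].Sublist σ)
    (h3 : ¬ [true, false].Sublist σ) : ∃ k, σ = B k ++ [true, true] := by
  induction σ with
  | nil => simp at h1
  | cons s σ ih =>
    cases s
    · rw [tf] at h1 h2 h3
      obtain ⟨n, rfl⟩ := ih h1 h2 h3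
      exact ⟨n + 1, rfl⟩
    · rw [List.cons_sublist_cons] at h1 h2 h3
      obtain ⟨n, rfl⟩ := sA h3
      have h4 : 1 ≤ n := by
        have := h1.length_le
        simpa using this
      have h5 : ¬ 2 ≤ n := fun h => h2 (by
        have : (A 2).Sublist (A n) := List.replicate_sublist_replicate true |>.2 h
        exact this)
      have : n = 1 := by omega
      subst this
      exact ⟨0, rfl⟩

/-- `a^l b a` -/
theorem sL {σ : List Bool} (h1 : [false, true].Sublist σ) (h2 : ¬ [false, false].Sublist σ)
    (h3 : ¬ [false, true, true].Sublist σ) : ∃ k, σ = A k ++ [false, true] := by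
  induction σ with
  | nil => simp at h1
  | cons s σ ih =>
    cases s
    · rw [List.cons_sublist_cons] at h1 h2 h3
      obtain ⟨n, rfl⟩ := sA h2
      have h4 : 1 ≤ n := by
        have := h1.length_le
        simpa using this
      have h5 : ¬ 2 ≤ n := fun h => h3 (by
        have : (A 2).Sublist (A n) := List.replicate_sublist_replicate true |>.2 h
        exact this)
      have : n = 1 := by omega
      subst this
      exact ⟨0, rfl⟩
    · rw [ft] at h1 h2 h3
      obtain ⟨n, rfl⟩ := ih h1 h2 h3
      exact ⟨n + 1, rfl⟩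

/-- `a^p b a^q b` -/
theorem sX {σ : List Bool} (h1 : [false, false].Sublist σ) (h2 : ¬ [false, false, true].Sublist σ)
    (h3 : ¬ [false, false, false].Sublist σ) : ∃ p q, σ = A p ++ false :: (A q ++ [false]) := by
  induction σ with
  | nil => simp at h1
  | cons s σ ih =>
    cases s
    · rw [List.cons_sublist_cons] at h1 h2 h3
      obtain ⟨n, rfl⟩ := sR h1 h2 h3
      exact ⟨0, n, rfl⟩
    · rw [ft] at h1 h2 h3
      obtain ⟨n, q, rfl⟩ := ih h1 h2 h3
      exact ⟨n + 1, q, rfl⟩

/-- `a^p b^q a`, `q ≥ 1` -/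
theorem sP {σ : List Bool} (h1 : [false, true].Sublist σ) (h2 : ¬ [false, true, false].Sublist σ)
    (h3 : ¬ [false, true, true].Sublist σ) : ∃ p q, 1 ≤ q ∧ σ = A p ++ (B q ++ [true]) := by
  induction σ with
  | nil => simp at h1
  | cons s σ ih =>
    cases s
    · rw [List.cons_sublist_cons] at h1 h2 h3
      obtain ⟨n, rfl⟩ := sY h1 h3 h2
      exact ⟨0, n + 1, by omega, rfl⟩
    · rw [ft] at h1 h2 h3
      obtain ⟨n, q, hq, rfl⟩ := ih h1 h2 h3
      exact ⟨n + 1, q, hq, rfl⟩

/-- `b^m a b` -/
theorem sQ {σ : List Bool} (h1 : [true, false].Sublist σ) (h2 : ¬ [true, true].Sublist σ)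
    (h3 : ¬ [true, false, false].Sublist σ) : ∃ k, σ = B k ++ [true, false] := by
  induction σ with
  | nil => simp at h1
  | cons s σ ih =>
    cases s
    · rw [tf] at h1 h2 h3
      obtain ⟨n, rfl⟩ := ih h1 h2 h3
      exact ⟨n + 1, rfl⟩
    · rw [List.cons_sublist_cons] at h1 h2 h3
      obtain ⟨n, rfl⟩ := sB h2
      have h4 : 1 ≤ n := by
        have := h1.length_le
        simpa using this
      have h5 : ¬ 2 ≤ n := fun h => h3 (by
        have : (B 2).Sublist (B n) := List.replicate_sublist_replicate false |>.2 h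
        exact this)
      have : n = 1 := by omega
      subst this
      exact ⟨0, rfl⟩

/-- `b^p a^q b a`, `q ≥ 1` -/
theorem sS {σ : List Bool} (h1 : [true, false, true].Sublist σ)
    (h2 : ¬ [true, false, false].Sublist σ) (h3 : ¬ [true, false, true, true].Sublist σ) :
    ∃ p q, 1 ≤ q ∧ σ = B p ++ (A q ++ [false, true]) := by
  induction σ with
  | nil => simp at h1
  | cons s σ ih =>
    cases s
    · rw [tf] at h1 h2 h3
      obtain ⟨n, q, hq, rfl⟩ := ih h1 h2 h3
      exact ⟨n + 1, q, hq, rfl⟩
    · rw [List.cons_sublist_cons] at h1 h2 h3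
      obtain ⟨n, rfl⟩ := sL h1 h2 h3
      exact ⟨0, n + 1, by omega, rfl⟩

/-! ### comparison of exponents -/

theorem snoc_same {x y : List Bool} {s : Bool} :
    (x ++ [s]).Sublist (y ++ [s]) ↔ x.Sublist y := List.append_sublist_append_right [s]

theorem snoc_ne {x y : List Bool} {s t : Bool} (h : s ≠ t) :
    (x ++ [s]).Sublist (y ++ [t]) ↔ (x ++ [s]).Sublist y := by
  rw [← List.reverse_sublist, ← List.reverse_sublist (l₁ := x ++ [s])]
  simp only [List.reverse_append, List.reverse_cons, List.reverse_nil, List.nil_append,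
    List.singleton_append]
  exact cons_sub h

theorem A_le {n m : ℕ} (h : n ≤ m) : (A n).Sublist (A m) :=
  (List.replicate_sublist_replicate true).2 h

theorem B_le {n m : ℕ} (h : n ≤ m) : (B n).Sublist (B m) :=
  (List.replicate_sublist_replicate false).2 h

theorem A_sub {n : ℕ} {σ : List Bool} : (A n).Sublist σ ↔ n ≤ σ.count true :=
  List.replicate_sublist_iff

theorem B_sub {n : ℕ} {σ : List Bool} : (B n).Sublist σ ↔ n ≤ σ.count false :=
  List.replicate_sublist_iff

@[simp] theorem ca_A (n : ℕ) : (A n).count true = n := by simp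
@[simp] theorem cb_A (n : ℕ) : (A n).count false = 0 := by simp [List.count_replicate]
@[simp] theorem ca_B (n : ℕ) : (B n).count true = 0 := by simp [List.count_replicate]
@[simp] theorem cb_B (n : ℕ) : (B n).count false = n := by simp

theorem len_count (σ : List Bool) : σ.length = σ.count true + σ.count false := by
  induction σ with
  | nil => rfl
  | cons s σ ih =>
    rw [List.length_cons, ih]
    cases s
    · simp; omega
    · simp; omega

end Pool.Agent.U34.RPO
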