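import Mathlib

set_option autoImplicit false

/-!
# A path ordering on words

`WGt P` is the ordering of words that the recursive path ordering induces on the terms in unary
symbols (and one constant).  The letters `a` and `b` are maximal and incomparable, the other letters
(`noise`) are below both.
-/

namespace Pool.Agent.U34.RPO

/-- the path ordering on words for the precedence `P` on letters -/
inductive WGt {Λ : Type} (P : Λ → Λ → Prop) : List Λ → List Λ → Prop
  | nil (s : Λ) (x : List Λ) : WGt P (s :: x) []
  | argEq (s t : Λ) (y : List Λ) : WGt P (s :: t :: y) (t :: y)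
  | arg (s t : Λ) (x y : List Λ) (h : WGt P x (t :: y)) : WGt P (s :: x) (t :: y)
  | prec (s t : Λ) (x y : List Λ) (hp : P s t) (h : WGt P (s :: x) y) : WGt P (s :: x) (t :: y)
  | lex (s : Λ) (x y : List Λ) (h : WGt P x y) : WGt P (s :: x) (s :: y)

/-- the reflexive closure -/
def WGe {Λ : Type} (P : Λ → Λ → Prop) (x y : List Λ) : Prop := x = y ∨ WGt P x y

open Classical in
/-- the skeleton: `a` becomes `true`, `b` becomes `false`, the other letters are deleted -/
noncomputable def sk {Λ : Type} (a b : Λ) (x : List Λ) : List Bool :=
  x.filterMap fun s => if s = a then some true else if s = b then some false else none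

/-- the word without noise -/
def nf {Λ : Type} (a b : Λ) (x : List Bool) : List Λ := x.map fun s => if s then a else b

/-- the assumptions on the precedence -/
structure Hyp {Λ : Type} (P : Λ → Λ → Prop) (a b : Λ) : Prop where
  ne : a ≠ b
  maxa : ∀ s, ¬ P s a
  maxb : ∀ s, ¬ P s b
  lowa : ∀ s, s ≠ a → s ≠ b → P a s
  lowb : ∀ s, s ≠ a → s ≠ b → P b s

section

variable {Λ : Type} {P : Λ → Λ → Prop} {a b : Λ}

@[simp] theorem sk_nil : sk a b [] = [] := rfl

@[simp] theorem sk_cons_a (x : List Λ) : sk a b (a :: x) = true :: sk a b x := by
  simp [sk]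

theorem sk_cons_b (h : a ≠ b) (x : List Λ) : sk a b (b :: x) = false :: sk a b x := by
  simp [sk, h.symm]

theorem sk_cons_ne {s : Λ} (h1 : s ≠ a) (h2 : s ≠ b) (x : List Λ) : sk a b (s :: x) = sk a b x := by
  simp [sk, h1, h2]

theorem sk_append (x y : List Λ) : sk a b (x ++ y) = sk a b x ++ sk a b y := by
  simp [sk]

@[simp] theorem nf_nil : nf a b [] = [] := rfl

@[simp] theorem nf_cons (s : Bool) (x : List Bool) :
    nf a b (s :: x) = (if s then a else b) :: nf a b x := rfl

theorem nf_append (x y : List Bool) : nf a b (x ++ y) = nf a b x ++ nf a b y := by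
  simp [nf]

theorem sk_nf (h : a ≠ b) (x : List Bool) : sk a b (nf a b x) = x := by
  induction x with
  | nil => rfl
  | cons s x ih =>
    cases s
    · simp [sk_cons_b h, ih]
    · simp [ih]

theorem WGe.refl (x : List Λ) : WGe P x x := Or.inl rfl

theorem WGe.cons_left (s : Λ) {x y : List Λ} (h : WGe P x y) : WGt P (s :: x) y := by
  rcases h with rfl | h
  · cases x with
    | nil => exact .nil _ _
    | cons t x => exact .argEq _ _ _
  · cases y with
    | nil => exact .nil _ _
    | cons t y => exact .arg _ _ _ _ h

theorem WGe.cons (s : Λ) {x y : List Λ} (h : WGe P x y) : WGe P (s :: x) (s :: y) := by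
  rcases h with rfl | h
  · exact Or.inl rfl
  · exact Or.inr (.lex _ _ _ h)

/-- soundness of positive information -/
theorem WGt.sk (H : Hyp P a b) {x y : List Λ} (h : WGt P x y) :
    (RPO.sk a b y).Sublist (RPO.sk a b x) := by
  have step : ∀ (s : Λ) (x : List Λ), (RPO.sk a b x).Sublist (RPO.sk a b (s :: x)) := by
    intro s x
    by_cases h1 : s = a
    · subst h1; simp
    by_cases h2 : s = b
    · subst h2; rw [sk_cons_b H.ne]; exact List.sublist_cons_self _ _
    · rw [sk_cons_ne h1 h2]
  induction h with
  | nil s x => simp
  | argEq s t y => exact step _ _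
  | arg s t x y _ ih => exact ih.trans (step _ _)
  | prec s t x y hp _ ih =>
    have h1 : t ≠ a := fun h => H.maxa s (h ▸ hp)
    have h2 : t ≠ b := fun h => H.maxb s (h ▸ hp)
    rw [sk_cons_ne h1 h2 y]
    exact ih
  | lex s x y _ ih =>
    by_cases h1 : s = a
    · subst h1; simpa using ih
    by_cases h2 : s = b
    · subst h2; rw [sk_cons_b H.ne, sk_cons_b H.ne]; exact ih.cons_cons _
    · rwa [sk_cons_ne h1 h2, sk_cons_ne h1 h2]

theorem WGe.sk (H : Hyp P a b) {x y : List Λ} (h : WGe P x y) :
    (RPO.sk a b y).Sublist (RPO.sk a b x) := by
  rcases h with rfl | h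
  · exact List.Sublist.refl _
  · exact h.sk H

theorem cons_sub {s t : Bool} {x y : List Bool} (h : s ≠ t) :
    (s :: x).Sublist (t :: y) ↔ (s :: x).Sublist y := by
  constructor
  · intro h1
    cases h1 with
    | cons _ h2 => exact h2
    | cons_cons _ h2 => exact absurd rfl h
  · exact fun h1 => h1.cons _

/-- strict domination of skeletons: soundness of negative information -/
theorem wgt_of_sk (H : Hyp P a b) (s : Bool) : ∀ (x y : List Λ),
    (sk a b y ++ [s]).Sublist (sk a b x) → WGt P x y := by
  intro x
  induction x with
  | nil =>
    intro y h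
    simp at h
  | cons t x ihx =>
    intro y
    by_cases h1 : t = a
    · subst h1
      induction y with
      | nil => intro _; exact .nil _ _
      | cons r y ihy =>
        intro h
        by_cases h2 : r = t
        · subst h2
          rw [sk_cons_a, sk_cons_a, List.cons_append, List.cons_sublist_cons] at h
          exact .lex _ _ _ (ihx y h)
        by_cases h3 : r = b
        · subst h3
          rw [sk_cons_b H.ne, sk_cons_a, List.cons_append, cons_sub (by decide)] at h
          refine .arg _ _ _ _ (ihx _ ?_)
          rwa [sk_cons_b H.ne, List.cons_append]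
        · rw [sk_cons_ne h2 h3] at h
          exact .prec _ _ _ _ (H.lowa r h2 h3) (ihy h)
    by_cases h2 : t = b
    · subst h2
      induction y with
      | nil => intro _; exact .nil _ _
      | cons r y ihy =>
        intro h
        by_cases h3 : r = t
        · subst h3
          rw [sk_cons_b H.ne, sk_cons_b H.ne, List.cons_append, List.cons_sublist_cons] at h
          exact .lex _ _ _ (ihx y h)
        by_cases h4 : r = a
        · subst h4
          rw [sk_cons_b H.ne, sk_cons_a, List.cons_append, cons_sub (by decide)] at h
          refine .arg _ _ _ _ (ihx _ ?_)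
          rwa [sk_cons_a, List.cons_append]
        · rw [sk_cons_ne h4 h3] at h
          exact .prec _ _ _ _ (H.lowb r h4 h3) (ihy h)
    · intro h
      rw [sk_cons_ne h1 h2] at h
      exact WGe.cons_left _ (Or.inr (ihx y h))

theorem neg_sk (H : Hyp P a b) {x y : List Λ} (h : ¬ WGe P x y) (s : Bool) :
    ¬ (sk a b y ++ [s]).Sublist (sk a b x) := fun h1 => h (Or.inr (wgt_of_sk H s x y h1))

/-- words without noise on the right -/
theorem wge_nf (H : Hyp P a b) : ∀ (x : List Λ) (t : List Bool),
    WGe P x (nf a b t) ↔ t.Sublist (sk a b x) := by
  intro x t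
  constructor
  · intro h
    have := h.sk H
    rwa [sk_nf H.ne] at this
  · revert t
    induction x with
    | nil =>
      intro t h
      rw [sk_nil, List.sublist_nil] at h
      subst h
      exact Or.inl rfl
    | cons s x ih =>
      intro t h
      by_cases h1 : s = a
      · subst h1
        rw [sk_cons_a] at h
        cases h with
        | cons _ h2 => exact Or.inr (WGe.cons_left _ (ih _ h2))
        | cons_cons _ h2 =>
          rw [nf_cons]
          exact WGe.cons _ (ih _ h2)
      by_cases h2 : s = b
      · subst h2
        rw [sk_cons_b H.ne] at h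
        cases h with
        | cons _ h2 => exact Or.inr (WGe.cons_left _ (ih _ h2))
        | cons_cons _ h2 =>
          rw [nf_cons]
          exact WGe.cons _ (ih _ h2)
      · rw [sk_cons_ne h1 h2] at h
        exact Or.inr (WGe.cons_left _ (ih _ h))

/-- a word without noise never dominates a word with noise at the end tightly -/
theorem wgt_noise (H : Hyp P a b) {h : Λ} (ha : h ≠ a) (hb : h ≠ b) : ∀ (x v : List Bool),
    WGe P (nf a b x) (nf a b v ++ [h]) → ∃ s, (v ++ [s]).Sublist x := by
  have key : ∀ (X Y : List Λ), WGt P X Y → ∀ (x v : List Bool), X = nf a b x →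
      Y = nf a b v ++ [h] → ∃ s, (v ++ [s]).Sublist x := by
    have hmem : ∀ x : List Bool, h ∉ nf a b x := by
      intro x hx
      unfold nf at hx
      rw [List.mem_map] at hx
      obtain ⟨s, -, hs⟩ := hx
      cases s
      · exact hb (by simpa using hs.symm)
      · exact ha (by simpa using hs.symm)
    intro X Y hXY
    induction hXY with
    | nil s x => intro _ v _ h2; simp at h2
    | argEq s t y =>
      intro x v h1 h2
      exfalso
      apply hmem x
      rw [← h1, h2]
      simp
    | arg s t X Y _ ih =>
      intro x v h1 h2
      cases x with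
      | nil => simp at h1
      | cons r x =>
        rw [nf_cons, List.cons.injEq] at h1
        obtain ⟨s', hs'⟩ := ih x v h1.2 h2
        exact ⟨s', hs'.cons _⟩
    | prec s t X Y hp _ ih =>
      intro x v h1 h2
      cases v with
      | nil =>
        cases x with
        | nil => simp at h1
        | cons r x => exact ⟨r, by simp⟩
      | cons r v =>
        exfalso
        rw [nf_cons, List.cons_append, List.cons.injEq] at h2
        cases r
        · have e : t = b := by simpa using h2.1
          exact H.maxb s (e ▸ hp)
        · have e : t = a := by simpa using h2.1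
          exact H.maxa s (e ▸ hp)
    | lex s X Y _ ih =>
      intro x v h1 h2
      cases x with
      | nil => simp at h1
      | cons r x =>
        rw [nf_cons, List.cons.injEq] at h1
        cases v with
        | nil =>
          exfalso
          rw [nf_nil, List.nil_append, List.cons.injEq] at h2
          apply hmem (r :: x)
          rw [nf_cons, ← h1.1, h2.1]
          simp
        | cons r' v =>
          rw [nf_cons, List.cons_append, List.cons.injEq] at h2
          obtain ⟨s', hs'⟩ := ih x v h1.2 h2.2
          have : r = r' := by
            have e := h1.1.symm.trans h2.1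
            cases r <;> cases r' <;> simp_all [H.ne, H.ne.symm]
          subst this
          exact ⟨s', by rw [List.cons_append]; exact hs'.cons_cons _⟩
  intro x v h1
  rcases h1 with h1 | h1
  · exfalso
    have : h ∈ nf a b x := by rw [h1]; simp
    unfold nf at this
    rw [List.mem_map] at this
    obtain ⟨s, -, hs⟩ := this
    cases s
    · exact hb (by simpa using hs.symm)
    · exact ha (by simpa using hs.symm)
  · exact key _ _ h1 x v rfl rfl

end

end Pool.Agent.U34.RPO
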