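import Pool.Agent.U34.RPO.Defs
import Pool.Agent.U34.RPO.Word

set_option autoImplicit false

/-! The terms that are built with two incomparable symbols and unary symbols below them. -/

namespace Pool.Agent.U34.RPO

section

variable {N : ℕ} {ar : Fin N → ℕ} {prec : Fin N → Fin N → Prop} {mul : Fin N → Prop}

/-- a constant as a ground term -/
def ct (c : Fin N) (hc : ar c = 0) : GT ar := .app c fun i => (Fin.cast hc i).elim0

theorem eq_ct {c : Fin N} (hc : ar c = 0) (x : Fin (ar c) → GT ar) : GT.app c x = ct c hc := by
  unfold ct
  congr 1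
  funext i
  exact (Fin.cast hc i).elim0

theorem Eqv.rfl' : ∀ t : GT ar, Eqv mul t t
  | .app s x => .congr s x x fun i => Eqv.rfl' (x i)

/-- the assumptions: `f` and `g` are incomparable and the symbols below them are unary and below both,
with the possible exception of the constant `c` -/
structure Ass (ar : Fin N → ℕ) (prec : Fin N → Fin N → Prop) (mul : Fin N → Prop) (f g c : Fin N) :
    Prop where
  irr : ∀ s, ¬ prec s s
  tr : ∀ s t u, prec s t → prec t u → prec s u
  ne : f ≠ g
  nfg : ¬ prec f g
  ngf : ¬ prec g f
  pf : 0 < ar f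
  pg : 0 < ar g
  uf : ar f = 1 ∨ ¬ mul f
  ug : ar g = 1 ∨ ¬ mul g
  hc : ar c = 0
  cmin : ∀ s, ar s = 0 → ¬ prec c s
  low : ∀ s, prec f s ∨ prec g s → ar s = 1 ∨ s = c
  both : ∀ s, ar s = 1 → (prec f s ↔ prec g s)

/-- the letters -/
def Lt (ar : Fin N → ℕ) (prec : Fin N → Fin N → Prop) (f g : Fin N) : Type :=
  {s : Fin N // s = f ∨ s = g ∨ (ar s = 1 ∧ prec f s)}

def Lt.pr {f g : Fin N} (s t : Lt ar prec f g) : Prop := prec s.1 t.1

def Lt.a (ar : Fin N → ℕ) (prec : Fin N → Fin N → Prop) (f g : Fin N) : Lt ar prec f g :=
  ⟨f, Or.inl rfl⟩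

def Lt.b (ar : Fin N → ℕ) (prec : Fin N → Fin N → Prop) (f g : Fin N) : Lt ar prec f g :=
  ⟨g, Or.inr (Or.inl rfl)⟩

variable {f g c : Fin N}

theorem Ass.hyp (H : Ass ar prec mul f g c) :
    Hyp (Lt.pr (ar := ar) (prec := prec) (f := f) (g := g)) (Lt.a ar prec f g)
      (Lt.b ar prec f g) where
  ne h := H.ne (congrArg Subtype.val h)
  maxa := by
    rintro ⟨s, rfl | rfl | ⟨h1, h2⟩⟩ h
    · exact H.irr _ h
    · exact H.ngf h
    · exact H.irr _ (H.tr _ _ _ h2 h)
  maxb := by
    rintro ⟨s, rfl | rfl | ⟨h1, h2⟩⟩ h
    · exact H.nfg h
    · exact H.irr _ h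
    · exact H.irr _ (H.tr _ _ _ ((H.both s h1).1 h2) h)
  lowa := by
    rintro ⟨s, rfl | rfl | ⟨h1, h2⟩⟩ ha hb
    · exact absurd rfl ha
    · exact absurd rfl hb
    · exact h2
  lowb := by
    rintro ⟨s, rfl | rfl | ⟨h1, h2⟩⟩ ha hb
    · exact absurd rfl ha
    · exact absurd rfl hb
    · exact (H.both s h1).1 h2

theorem Ass.lt_pos (H : Ass ar prec mul f g c) (s : Lt ar prec f g) : 0 < ar s.1 := by
  rcases s with ⟨s, rfl | rfl | ⟨h1, h2⟩⟩
  · exact H.pf
  · exact H.pg
  · change 0 < ar s; omega

theorem Ass.lt_mul (H : Ass ar prec mul f g c) (s : Lt ar prec f g) (h : mul s.1) :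
    ar s.1 = 1 := by
  rcases s with ⟨s, rfl | rfl | ⟨h1, h2⟩⟩
  · exact H.uf.resolve_right (fun h1 => h1 h)
  · exact H.ug.resolve_right (fun h1 => h1 h)
  · exact h1

/-- the arguments of a letter: `x` at the last place and the constant elsewhere -/
def ctx (hc : ar c = 0) (s : Fin N) (x : GT ar) (i : Fin (ar s)) : GT ar :=
  if i.val + 1 = ar s then x else ct c hc

/-- the term of a word -/
def emb (hc : ar c = 0) : List (Lt ar prec f g) → GT ar
  | [] => ct c hc
  | s :: l => .app s.1 (ctx hc s.1 (emb hc l))

theorem exists_last {s : Fin N} (h : 0 < ar s) : ∃ i : Fin (ar s), i.val + 1 = ar s :=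
  ⟨⟨ar s - 1, by omega⟩, by simp; omega⟩

theorem ctx_last (hc : ar c = 0) {s : Fin N} {i : Fin (ar s)} (hi : i.val + 1 = ar s) (x : GT ar) :
    ctx hc s x i = x := if_pos hi

theorem ctx_ne (hc : ar c = 0) {s : Fin N} {i : Fin (ar s)} (hi : i.val + 1 ≠ ar s) (x : GT ar) :
    ctx hc s x i = ct c hc := if_neg hi

theorem emb_cons_ne (H : Ass ar prec mul f g c) (s : Lt ar prec f g) (l : List (Lt ar prec f g)) :
    emb H.hc (s :: l) ≠ ct c H.hc := by
  intro h
  have h1 : s.1 = c := by
    unfold emb ct at h
    injection h
  have := H.lt_pos s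
  rw [h1, H.hc] at this
  omega

theorem emb_inj (H : Ass ar prec mul f g c) : ∀ (x y : List (Lt ar prec f g)),
    emb H.hc x = emb H.hc y → x = y := by
  intro x
  induction x with
  | nil =>
    intro y h
    cases y with
    | nil => rfl
    | cons t y => exact absurd h.symm (emb_cons_ne H t y)
  | cons s x ih =>
    intro y h
    cases y with
    | nil => exact absurd h (emb_cons_ne H s x)
    | cons t y =>
      have h1 : s = t := by
        apply Subtype.ext
        unfold emb at h
        injection h
      subst h1
      unfold emb at h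
      have h2 : ctx H.hc s.1 (emb H.hc x) = ctx H.hc s.1 (emb H.hc y) := by
        injection h
      obtain ⟨i, hi⟩ := exists_last (H.lt_pos s)
      have h3 := congrFun h2 i
      rw [ctx_last _ hi, ctx_last _ hi] at h3
      rw [ih y h3]

/-- equivalence is equality on the terms of words -/
theorem eqv_emb (H : Ass ar prec mul f g c) {t t' : GT ar} (h : Eqv mul t t') :
    ∀ l : List (Lt ar prec f g), t = emb H.hc l ↔ t' = emb H.hc l := by
  induction h with
  | congr s x y _ ih =>
    have key : ∀ (x y : Fin (ar s) → GT ar),
        (∀ i, ∀ l : List (Lt ar prec f g), x i = emb H.hc l ↔ y i = emb H.hc l) →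
        ∀ l : List (Lt ar prec f g), GT.app s x = emb H.hc l → GT.app s y = emb H.hc l := by
      intro x y ih l h
      cases l with
      | nil =>
        have h1 : s = c := by
          unfold emb ct at h
          injection h
        subst h1
        exact eq_ct H.hc y
      | cons r l =>
        obtain ⟨r, hr⟩ := r
        unfold emb at h ⊢
        have h1 : s = r := by injection h
        subst h1
        have h2 : x = ctx H.hc s (emb H.hc l) := by injection h
        change GT.app s y = GT.app s (ctx H.hc s (emb H.hc l))
        congr 1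
        funext i
        by_cases hi : i.val + 1 = ar s
        · rw [ctx_last _ hi]
          exact (ih i l).1 (by rw [h2, ctx_last _ hi])
        · rw [ctx_ne _ hi]
          exact (ih i []).1 (by rw [h2, ctx_ne _ hi]; rfl)
    intro l
    exact ⟨key x y ih l, key y x (fun i l => (ih i l).symm) l⟩
  | perm s x hs π =>
    intro l
    have key : ∀ r : Lt ar prec f g, r.1 = s → (fun i => x (π i)) = x := by
      rintro r rfl
      funext i
      have h1 := H.lt_mul r hs
      have : π i = i := by
        apply Fin.ext
        have := (π i).2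
        have := i.2
        omega
      rw [this]
    cases l with
    | nil =>
      unfold emb
      constructor
      · intro h
        have h1 : s = c := by
          unfold ct at h
          injection h
        subst h1
        exact eq_ct H.hc _
      · intro h
        have h1 : s = c := by
          unfold ct at h
          injection h
        subst h1
        exact eq_ct H.hc _
    | cons r l =>
      unfold emb
      constructor
      · intro h
        have h1 : s = r.1 := by injection h
        rw [key r h1.symm]
        exact h
      · intro h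
        have h1 : s = r.1 := by injection h
        rw [key r h1.symm] at h
        exact h
  | symm t t' _ ih => exact fun l => (ih l).symm
  | trans t t' t'' _ _ ih ih' => exact fun l => (ih l).trans (ih' l)

/-- the constant `c` is minimal -/
theorem not_rpo_ct (H : Ass ar prec mul f g c) : ∀ t : GT ar, ¬ Rpo prec mul (ct c H.hc) t := by
  have key : ∀ t t' : GT ar, Rpo prec mul t t' → t = ct c H.hc → False := by
    intro t t' h
    induction h with
    | arg s x t i _ _ =>
      intro h
      have h1 : s = c := by unfold ct at h; injection h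
      subst h1
      exact (Fin.cast H.hc i).elim0
    | argEqv s x t i _ =>
      intro h
      have h1 : s = c := by unfold ct at h; injection h
      subst h1
      exact (Fin.cast H.hc i).elim0
    | prec s s' x y hp _ ih =>
      intro h
      have h1 : s = c := by unfold ct at h; injection h
      subst h1
      rcases Nat.eq_zero_or_pos (ar s') with h2 | h2
      · exact H.cmin _ h2 hp
      · exact ih ⟨0, h2⟩ h
    | lex s x y hs _ k _ _ _ _ =>
      intro h
      have h1 : s = c := by unfold ct at h; injection h
      subst h1
      exact (Fin.cast H.hc k).elim0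
    | mset s x y hs _ K e w hK _ _ _ _ _ _ =>
      intro h
      have h1 : s = c := by unfold ct at h; injection h
      subst h1
      exact hK (Finset.eq_univ_iff_forall.2 fun i => (Fin.cast H.hc i).elim0)
  exact fun t h => key _ _ h rfl

theorem rpo_last {s : Fin N} {hc : ar c = 0} {x t : GT ar} (hs : 0 < ar s)
    (h : x = t ∨ Rpo prec mul x t) : Rpo prec mul (.app s (ctx hc s x)) t := by
  obtain ⟨i, hi⟩ := exists_last hs
  rcases h with rfl | h
  · exact .argEqv _ _ _ i (by rw [ctx_last _ hi]; exact Eqv.rfl' _)
  · exact .arg _ _ _ i (by rw [ctx_last _ hi]; exact h)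

theorem emb_ge_ct (H : Ass ar prec mul f g c) (x : List (Lt ar prec f g)) :
    emb H.hc x = ct c H.hc ∨ Rpo prec mul (emb H.hc x) (ct c H.hc) := by
  induction x with
  | nil => exact Or.inl rfl
  | cons s x ih => exact Or.inr (rpo_last (H.lt_pos s) ih)

theorem rpo_of_wgt (H : Ass ar prec mul f g c) {x y : List (Lt ar prec f g)}
    (h : WGt Lt.pr x y) : Rpo prec mul (emb H.hc x) (emb H.hc y) := by
  have gec : ∀ (s : Lt ar prec f g) (x : List (Lt ar prec f g)),
      Rpo prec mul (emb H.hc (s :: x)) (ct c H.hc) := by
    intro s x
    rcases emb_ge_ct H (s :: x) with h | h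
    · exact absurd h (emb_cons_ne H s x)
    · exact h
  induction h with
  | nil s x => exact gec s x
  | argEq s t y => exact rpo_last (H.lt_pos s) (Or.inl rfl)
  | arg s t x y _ ih => exact rpo_last (H.lt_pos s) (Or.inr ih)
  | prec s t x y hp _ ih =>
    refine .prec _ _ _ _ hp fun j => ?_
    by_cases hj : j.val + 1 = ar t.1
    · rw [ctx_last _ hj]; exact ih
    · rw [ctx_ne _ hj]; exact gec s x
  | lex s x y _ ih =>
    obtain ⟨k, hk⟩ := exists_last (H.lt_pos s)
    have h1 : ∀ j, Rpo prec mul (emb H.hc (s :: x)) (ctx H.hc s.1 (emb H.hc y) j) := by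
      intro j
      by_cases hj : j.val + 1 = ar s.1
      · rw [ctx_last _ hj]; exact rpo_last (H.lt_pos s) (Or.inr ih)
      · rw [ctx_ne _ hj]; exact gec s x
    by_cases hm : mul s.1
    · have h2 := H.lt_mul s hm
      refine .mset _ _ _ hm h1 ∅ id id ?_ ?_ ?_ ?_ ?_
      · intro h
        have := Finset.mem_univ k
        rw [← h] at this
        simp at this
      · simp
      · simp
      · simp
      · intro j _
        have hj : j.val + 1 = ar s.1 := by
          have := j.2
          omega
        rw [id, ctx_last _ hj, ctx_last _ hj]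
        exact ih
    · refine .lex _ _ _ hm h1 k (fun i hi => ?_) ?_
      · have hi' : i.val + 1 ≠ ar s.1 := by
          have : i.val < k.val := hi
          omega
        rw [ctx_ne _ hi', ctx_ne _ hi']
        exact Eqv.rfl' _
      · rw [ctx_last _ hk, ctx_last _ hk]
        exact ih

theorem wgt_of_rpo (H : Ass ar prec mul f g c) {t t' : GT ar} (h : Rpo prec mul t t') :
    ∀ x y : List (Lt ar prec f g), t = emb H.hc x → t' = emb H.hc y → WGt Lt.pr x y := by
  have nil_of : ∀ {s : Lt ar prec f g} {x y : List (Lt ar prec f g)}, y = [] →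
      WGt Lt.pr (s :: x) y := by
    rintro s x _ rfl
    exact .nil _ _
  induction h with
  | arg s x t i h ih =>
    intro X Y hX hY
    cases X with
    | nil =>
      exfalso
      unfold emb at hX
      apply not_rpo_ct H t
      rw [← hX]
      exact .arg _ _ _ i h
    | cons r X =>
      obtain ⟨r, hr⟩ := r
      cases Y with
      | nil => exact .nil _ _
      | cons q Y =>
        unfold emb at hX
        have h1 : s = r := by injection hX
        subst h1
        have h2 : x = ctx H.hc s (emb H.hc X) := by injection hX
        by_cases hi : i.val + 1 = ar s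
        · exact .arg _ _ _ _ (ih X (q :: Y) (by rw [h2, ctx_last _ hi]) hY)
        · exfalso
          rw [h2, ctx_ne _ hi] at h
          exact not_rpo_ct H _ h
  | argEqv s x t i h =>
    intro X Y hX hY
    cases X with
    | nil =>
      exfalso
      unfold emb at hX
      apply not_rpo_ct H t
      rw [← hX]
      exact .argEqv _ _ _ i h
    | cons r X =>
      obtain ⟨r, hr⟩ := r
      cases Y with
      | nil => exact .nil _ _
      | cons q Y =>
        unfold emb at hX
        have h1 : s = r := by injection hX
        subst h1
        have h2 : x = ctx H.hc s (emb H.hc X) := by injection hX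
        by_cases hi : i.val + 1 = ar s
        · rw [h2, ctx_last _ hi] at h
          have h3 := (eqv_emb H h (q :: Y)).2 hY
          rw [emb_inj H _ _ h3]
          exact .argEq _ _ _
        · exfalso
          rw [h2, ctx_ne _ hi] at h
          have h3 := (eqv_emb H h (q :: Y)).2 hY
          exact emb_cons_ne H q Y h3.symm
  | prec s s' x y hp h ih =>
    intro X Y hX hY
    cases X with
    | nil =>
      exfalso
      unfold emb at hX
      apply not_rpo_ct H (.app s' y)
      rw [← hX]
      exact .prec _ _ _ _ hp h
    | cons r X =>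
      cases Y with
      | nil => exact .nil _ _
      | cons q Y =>
        have hX' := hX
        obtain ⟨r, hr⟩ := r
        obtain ⟨q, hq⟩ := q
        unfold emb at hX' hY
        have h1 : s = r := by injection hX'
        subst h1
        have h2 : s' = q := by injection hY
        subst h2
        have h3 : y = ctx H.hc s' (emb H.hc Y) := by injection hY
        obtain ⟨i, hi⟩ := exists_last (H.lt_pos ⟨s', hq⟩)
        exact .prec _ _ _ _ hp (ih i (⟨s, hr⟩ :: X) Y hX (by rw [h3, ctx_last _ hi]))
  | lex s x y hs h k he hk ih ihk =>
    intro X Y hX hY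
    cases X with
    | nil =>
      exfalso
      unfold emb at hX
      apply not_rpo_ct H (.app s y)
      rw [← hX]
      exact .lex _ _ _ hs h k he hk
    | cons r X =>
      cases Y with
      | nil => exact .nil _ _
      | cons q Y =>
        obtain ⟨r, hr⟩ := r
        obtain ⟨q, hq⟩ := q
        unfold emb at hX hY
        have h1 : s = r := by injection hX
        subst h1
        have h2 : s = q := by injection hY
        subst h2
        have h3 : x = ctx H.hc s (emb H.hc X) := by injection hX
        have h4 : y = ctx H.hc s (emb H.hc Y) := by injection hY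
        by_cases hi : k.val + 1 = ar s
        · exact .lex _ _ _ (ihk X Y (by rw [h3, ctx_last _ hi]) (by rw [h4, ctx_last _ hi]))
        · exfalso
          rw [h3, ctx_ne _ hi] at hk
          exact not_rpo_ct H _ hk
  | mset s x y hs h K e w hK hinj he hw hk ih ihk =>
    intro X Y hX hY
    cases X with
    | nil =>
      exfalso
      unfold emb at hX
      apply not_rpo_ct H (.app s y)
      rw [← hX]
      exact .mset _ _ _ hs h K e w hK hinj he hw hk
    | cons r X =>
      cases Y with
      | nil => exact .nil _ _
      | cons q Y =>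
        obtain ⟨r, hr⟩ := r
        obtain ⟨q, hq⟩ := q
        unfold emb at hX hY
        have h1 : s = r := by injection hX
        subst h1
        have h2 : s = q := by injection hY
        subst h2
        have h3 : x = ctx H.hc s (emb H.hc X) := by injection hX
        have h4 : y = ctx H.hc s (emb H.hc Y) := by injection hY
        have h5 : ar s = 1 := H.lt_mul ⟨s, hr⟩ hs
        have hone : ∀ i : Fin (ar s), i.val + 1 = ar s := by
          intro i
          have := i.2
          omega
        obtain ⟨j, -⟩ := exists_last (H.lt_pos ⟨s, hr⟩)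
        have hKe : ∀ i ∈ K, e i ≠ j := by
          intro i hi
          exfalso
          apply hK
          rw [Finset.eq_univ_iff_forall]
          intro i'
          have : i' = i := Fin.ext (by have := hone i; have := hone i'; omega)
          rw [this]
          exact hi
        exact .lex _ _ _ (ihk j hKe X Y (by rw [h3, ctx_last _ (hone _)])
          (by rw [h4, ctx_last _ (hone _)]))

theorem rpo_emb (H : Ass ar prec mul f g c) (x y : List (Lt ar prec f g)) :
    Rpo prec mul (emb H.hc x) (emb H.hc y) ↔ WGt Lt.pr x y :=
  ⟨fun h => wgt_of_rpo H h x y rfl rfl, rpo_of_wgt H⟩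

theorem ge_emb (H : Ass ar prec mul f g c) (x y : List (Lt ar prec f g)) :
    (emb H.hc x = emb H.hc y ∨ Rpo prec mul (emb H.hc x) (emb H.hc y)) ↔ WGe Lt.pr x y := by
  rw [rpo_emb H]
  unfold WGe
  exact or_congr_left ⟨emb_inj H _ _, fun h => by rw [h]⟩

end

end Pool.Agent.U34.RPO
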